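import Mathlib

set_option autoImplicit false

open Finset Filter Topology

namespace Pool.Agent.Y866.EC

noncomputable section

/-! ## Linear algebra -/

/-- linear automorphisms which fix `Z` pointwise -/
def FixS {F V : Type} [Field F] [AddCommGroup V] [Module F V] (Z : Submodule F V) :
    Subgroup (V ≃ₗ[F] V) where
  carrier := {g | ∀ v ∈ Z, g v = v}
  mul_mem' := by
    intro a b ha hb v hv
    change a (b v) = v
    rw [hb v hv, ha v hv]
  one_mem' := fun v _ => rfl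
  inv_mem' := by
    intro a ha v hv
    change a.symm v = v
    rw [LinearEquiv.symm_apply_eq]
    exact (ha v hv).symm

/-- arrays, the space `F^m ⊗ F^m` -/
abbrev Ar (F : Type) (m : ℕ) : Type := Fin m → Fin m → F

/-- the arrays all of whose columns, read as polynomials of degree `< m`, vanish at `c` -/
def Zc {F : Type} [Field F] (m : ℕ) (c : F) : Submodule F (Ar F m) where
  carrier := {v | ∀ j, ∑ i : Fin m, c ^ (i : ℕ) * v i j = 0}
  add_mem' := by
    intro a b ha hb j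
    simp only [Set.mem_ofPred_eq] at ha hb
    simp only [Pi.add_apply, mul_add, Finset.sum_add_distrib, ha j, hb j, add_zero]
  zero_mem' := by
    intro j
    simp
  smul_mem' := by
    intro r a ha j
    simp only [Set.mem_ofPred_eq] at ha
    have : ∑ i : Fin m, c ^ (i : ℕ) * (r • a) i j = r * ∑ i : Fin m, c ^ (i : ℕ) * a i j := by
      rw [Finset.mul_sum]
      refine Finset.sum_congr rfl fun i _ => ?_
      simp only [Pi.smul_apply, smul_eq_mul]
      ring
    rw [this, ha j, mul_zero]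

/-- intersection of the `Zc` over the letters of a word -/
def ZW {F : Type} [Field F] (m : ℕ) : List F → Submodule F (Ar F m)
  | [] => ⊤
  | c :: w => Zc m c ⊓ ZW m w

/-- transposition of the lower right block: the entries of row `0` and of column `0` are kept -/
def tr {F : Type} [Field F] (m : ℕ) [NeZero m] : Ar F m ≃ₗ[F] Ar F m where
  toFun v := fun i j => if i = 0 ∨ j = 0 then v i j else v j i
  invFun v := fun i j => if i = 0 ∨ j = 0 then v i j else v j i
  map_add' := by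
    intro a b
    funext i j
    simp only [Pi.add_apply]
    split_ifs <;> rfl
  map_smul' := by
    intro r a
    funext i j
    simp only [Pi.smul_apply, RingHom.id_apply]
    split_ifs <;> rfl
  left_inv := by
    intro v
    funext i j
    by_cases h : i = 0 ∨ j = 0
    · simp [h]
    · simp [h, or_comm]
  right_inv := by
    intro v
    funext i j
    by_cases h : i = 0 ∨ j = 0
    · simp [h]
    · simp [h, or_comm]

/-- the arrays with vanishing row `0` and column `0`, whose columns vanish on `B` and whose rows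
vanish on `A` -/
def YY {F : Type} [Field F] (m : ℕ) [NeZero m] (A B : Finset F) : Submodule F (Ar F m) where
  carrier := {v | (∀ j, v 0 j = 0) ∧ (∀ i, v i 0 = 0) ∧
    (∀ c ∈ B, ∀ j, ∑ i : Fin m, c ^ (i : ℕ) * v i j = 0) ∧
    (∀ c ∈ A, ∀ i, ∑ j : Fin m, c ^ (j : ℕ) * v i j = 0)}
  add_mem' := by
    rintro a b ⟨a1, a2, a3, a4⟩ ⟨b1, b2, b3, b4⟩
    refine ⟨fun j => ?_, fun i => ?_, fun c hc j => ?_, fun c hc i => ?_⟩
    · simp [a1 j, b1 j]
    · simp [a2 i, b2 i]
    · simp only [Pi.add_apply, mul_add, Finset.sum_add_distrib, a3 c hc j, b3 c hc j, add_zero]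
    · simp only [Pi.add_apply, mul_add, Finset.sum_add_distrib, a4 c hc i, b4 c hc i, add_zero]
  zero_mem' := by
    refine ⟨fun j => rfl, fun i => rfl, fun c hc j => ?_, fun c hc i => ?_⟩ <;> simp
  smul_mem' := by
    rintro r a ⟨a1, a2, a3, a4⟩
    refine ⟨fun j => ?_, fun i => ?_, fun c hc j => ?_, fun c hc i => ?_⟩
    · simp [a1 j]
    · simp [a2 i]
    · have : ∑ i : Fin m, c ^ (i : ℕ) * (r • a) i j = r * ∑ i : Fin m, c ^ (i : ℕ) * a i j := by
        rw [Finset.mul_sum]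
        refine Finset.sum_congr rfl fun i _ => ?_
        simp only [Pi.smul_apply, smul_eq_mul]
        ring
      rw [this, a3 c hc j, mul_zero]
    · have : ∑ j : Fin m, c ^ (j : ℕ) * (r • a) i j = r * ∑ j : Fin m, c ^ (j : ℕ) * a i j := by
        rw [Finset.mul_sum]
        refine Finset.sum_congr rfl fun i _ => ?_
        simp only [Pi.smul_apply, smul_eq_mul]
        ring
      rw [this, a4 c hc i, mul_zero]

/-- EC-CARD: the number of automorphisms which fix a subspace pointwise -/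
def S_CARD : Prop := ∀ (F V : Type) [Field F] [Fintype F] [AddCommGroup V] [Module F V]
    [Finite V] (Z : Submodule F V),
  Nat.card (FixS Z) ≤ Fintype.card F ^ (Module.finrank F (V ⧸ Z) * Module.finrank F V) ∧
  (Fintype.card F - 2) * Fintype.card F ^ (Module.finrank F (V ⧸ Z) * Module.finrank F V) ≤
    (Fintype.card F - 1) * Nat.card (FixS Z)

/-- EC-DIM: dimension of `YY` -/
def S_DIM : Prop := ∀ (F : Type) [Field F] (m : ℕ) [NeZero m] (A B : Finset F),
  (m - 1 - A.card) * (m - 1 - B.card) ≤ Module.finrank F (YY m A B)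

/-- EC-VDM: a word with at least `m` different letters -/
def S_VDM : Prop := ∀ (F : Type) [Field F] [DecidableEq F] (m : ℕ) (w : List F),
  m ≤ w.toFinset.card → ZW m w = ⊥

/-- EC-CONJ: the pointwise stabilizers of the `Zc` are conjugate -/
def S_CONJ : Prop := ∀ (F : Type) [Field F] (m : ℕ) (c : F),
  Nat.card (FixS (Zc m c)) = Nat.card (FixS (Zc m (0 : F)))

open Classical in
/-- EC-DENS: the density of a product of two independent elements -/
def S_DENS : Prop := ∀ (F V : Type) [Field F] [Fintype F] [AddCommGroup V] [Module F V]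
    [Finite V] [Fintype (V ≃ₗ[F] V)] (_ : 3 ≤ Fintype.card F) (Z Z' : Submodule F V)
    (f : (V ≃ₗ[F] V) → ℝ) (B : ℝ), 0 ≤ B → (∀ g, 0 ≤ f g) →
    (∀ g ∈ FixS Z, f g ≤
      B / (Fintype.card F : ℝ) ^ (Module.finrank F (V ⧸ Z) * Module.finrank F V)) →
    (∀ g, g ∉ FixS Z → f g = 0) →
    (∀ z ∈ FixS (Z' ⊓ Z),
      (∑ s ∈ univ.filter (fun s => s ∈ FixS Z'), f (s⁻¹ * z)) / (Nat.card (FixS Z') : ℝ) ≤
        B * (((Fintype.card F : ℝ) - 1) / ((Fintype.card F : ℝ) - 2)) /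
        (Fintype.card F : ℝ) ^ (Module.finrank F (V ⧸ (Z' ⊓ Z)) * Module.finrank F V)) ∧
    (∀ z, z ∉ FixS (Z' ⊓ Z) →
      (∑ s ∈ univ.filter (fun s => s ∈ FixS Z'), f (s⁻¹ * z)) / (Nat.card (FixS Z') : ℝ) = 0)

/-! ## Words -/

/-- the sum of `Φ w` over all words `w` of length `n` -/
def W {F : Type} [Fintype F] : ℕ → (List F → ℝ) → ℝ
  | 0, Φ => Φ []
  | n + 1, Φ => ∑ c : F, W n (fun w => Φ (c :: w))

/-- the law of the product `s₁ s₂ ⋯ sₙ` with `sᵢ` uniform in `S wᵢ` -/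
def mu {F G : Type} [Group G] [DecidableEq G] (S : F → Finset G) : List F → G → ℝ
  | [] => fun z => if z = 1 then 1 else 0
  | c :: w => fun z => (∑ s ∈ S c, mu S w (s⁻¹ * z)) / ((S c).card : ℝ)

/-- the law of the product of `n` independent uniform elements of `S` -/
def qn {G : Type} [Group G] [DecidableEq G] (S : Finset G) : ℕ → G → ℝ
  | 0 => fun z => if z = 1 then 1 else 0
  | n + 1 => fun z => (∑ s ∈ S, qn S n (s⁻¹ * z)) / (S.card : ℝ)

/-- the law at time `t` of the lazy walk with steps in `S`, started from `1` -/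
def pt {G : Type} [Group G] [DecidableEq G] (S : Finset G) (t : ℕ) (z : G) : ℝ :=
  (1 / 2 : ℝ) ^ t * ∑ n ∈ range (t + 1), (t.choose n : ℝ) * qn S n z

/-- the matrix of the lazy walk with steps in `S` -/
def Pm {G : Type} [Group G] [DecidableEq G] (S : Finset G) : Matrix G G ℝ :=
  fun x y => (if x = y then 1 / 2 else 0) + (if x⁻¹ * y ∈ S then 1 / (2 * (S.card : ℝ)) else 0)

/-- EC-WALK -/
def S_WALK : Prop := ∀ (G : Type) [Group G] [Fintype G] [DecidableEq G] (S : Finset G),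
  S.Nonempty → ∀ (t : ℕ) (x y : G), ((Pm S) ^ t) x y = pt S t (x⁻¹ * y)

/-- the step set in `G × F` -/
def SS {F G : Type} [Fintype F] [Fintype G] [DecidableEq F] [DecidableEq G] (S : F → Finset G) :
    Finset (G × Multiplicative F) :=
  univ.filter (fun y => y.1 ∈ S (Multiplicative.toAdd y.2))

/-- EC-WORD1: the walk on `G × F` and words -/
def S_WORD1 : Prop := ∀ (F G : Type) [AddCommGroup F] [Fintype F] [DecidableEq F] [Group G]
    [Fintype G] [DecidableEq G] (S : F → Finset G) (κ : ℕ), 0 < κ → (∀ c, (S c).card = κ) →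
  (SS S).card = Fintype.card F * κ ∧
  ∀ (n : ℕ) (g : G) (γ : F), qn (SS S) n (g, Multiplicative.ofAdd γ) =
    (W n (fun w => if w.sum = γ then mu S w g else 0)) / (Fintype.card F : ℝ) ^ n

/-- EC-WORD2: counting words -/
def S_WORD2 : Prop := ∀ (F : Type) [AddCommGroup F] [Fintype F] [DecidableEq F],
  (∀ (n : ℕ) (γ : F), W (n + 1) (fun w => if w.sum = γ then (1 : ℝ) else 0) =
    (Fintype.card F : ℝ) ^ n) ∧
  (∀ n : ℕ, W n (fun w => if (0 : F) ∈ w then (1 : ℝ) else 0) * (Fintype.card F : ℝ) ≤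
    n * (Fintype.card F : ℝ) ^ n) ∧
  (∀ m n : ℕ, W n (fun w : List F => if w.toFinset.card < m then (1 : ℝ) else 0) ≤
    2 ^ m * (((Fintype.card F : ℝ) + n) / 2) ^ n)

/-- indicator: no letter is zero -/
def Ai {F : Type} [Zero F] [DecidableEq F] : List F → ℝ
  | [] => 1
  | c :: w => if c = 0 then 0 else Ai w

/-- indicator: exactly the letter with index `i` is zero -/
def Ni {F : Type} [Zero F] [DecidableEq F] : ℕ → List F → ℝ
  | _, [] => 0
  | 0, c :: w => if c = 0 then Ai w else 0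
  | i + 1, c :: w => if c = 0 then 0 else Ni i w

/-- EC-WORD3: words with exactly one zero -/
def S_WORD3 : Prop := ∀ (F : Type) [Zero F] [Fintype F] [DecidableEq F],
  (∀ n i : ℕ, i ≤ n → W (n + 1) (Ni (F := F) i) = ((Fintype.card F : ℝ) - 1) ^ n) ∧
  (∀ (I : Finset ℕ) (w : List F), 0 ≤ ∑ i ∈ I, Ni i w ∧ ∑ i ∈ I, Ni i w ≤ 1) ∧
  (∀ (i : ℕ) (w : List F), Ni i w ≠ 0 → ∃ u u' : List F, w = u ++ 0 :: u' ∧ u.length = i ∧
    (0 : F) ∉ u ∧ (0 : F) ∉ u')

/-! ## Entropy -/

/-- EC-ENT1: upper bound for the relative entropy -/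
def S_ENT1 : Prop := ∀ (V : Type) [Fintype V] [Nonempty V] (p g b : V → ℝ) (c β : ℝ),
  (∀ y, 0 ≤ g y) → (∀ y, 0 ≤ b y) → (∀ y, p y = g y + b y) → ∑ y, p y = 1 →
  (∀ y, g y ≤ c / (Fintype.card V : ℝ)) → ∑ y, b y ≤ β → 1 ≤ c →
  ∑ y, p y * Real.log (p y / (1 / (Fintype.card V : ℝ))) ≤
    Real.log c + β * (1 + Real.log (Fintype.card V))

/-- EC-ENT2: lower bound for the relative entropy -/
def S_ENT2 : Prop := ∀ (V : Type) [Fintype V] [Nonempty V] (p : V → ℝ) (E : Finset V) (α l : ℝ),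
  (∀ y, 0 ≤ p y) → ∑ y, p y = 1 → α ≤ ∑ y ∈ E, p y → 0 ≤ l →
  (E.card : ℝ) ≤ Real.exp (-l) * (Fintype.card V : ℝ) →
  α * l - 1 ≤ ∑ y, p y * Real.log (p y / (1 / (Fintype.card V : ℝ)))

/-- EC-ENT3: total variation from the size of the support -/
def S_ENT3 : Prop := ∀ (V : Type) [Fintype V] [Nonempty V] (p : V → ℝ) (E : Finset V),
  (∀ y, 0 ≤ p y) → ∑ y, p y = 1 → (∀ y, y ∉ E → p y = 0) → 2 * E.card ≤ Fintype.card V →
  1 / 2 ≤ (1 / 2 : ℝ) * ∑ y, |p y - 1 / (Fintype.card V : ℝ)|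

/-- EC-ENT4: contraction from a decomposition -/
def S_ENT4 : Prop := ∀ (V : Type) [Fintype V] [Nonempty V] (p g b f : V → ℝ) (c β M : ℝ),
  (∀ y, 0 ≤ g y) → (∀ y, 0 ≤ b y) → (∀ y, p y = g y + b y) → ∑ y, p y = 1 →
  (∀ y, g y ≤ c / (Fintype.card V : ℝ)) → ∑ y, b y ≤ β → ∑ y, f y = 0 → (∀ y, |f y| ≤ M) →
  |∑ y, p y * f y| ≤ (c - 1 + 2 * β) * M

/-! ## Numbers -/

/-- the error term -/
def beta (k : ℕ) (q : ℝ) : ℝ :=
  24 * k / q + 2 ^ (8 * k + 1) * (3 / 4 + 24 * k / (4 * q)) ^ (24 * k)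

/-- the density constant -/
def cc (k : ℕ) (q : ℝ) : ℝ := ((q - 1) / (q - 2)) ^ (24 * k)

/-- EC-NUM: the choice of the field with `2 ^ a k` elements -/
def S_NUM : Prop := ∃ a : ℕ → ℕ, (∀ k, 1 ≤ a k) ∧
  (∀ᶠ k : ℕ in atTop, 3 ≤ (2 : ℝ) ^ a k ∧
    2 < (1 / 4) * (k / (2 : ℝ) ^ a k) * (1 - 1 / (2 : ℝ) ^ a k) ^ (26 * k) *
      (((k : ℝ) ^ 2 * (8 * k + 1) ^ 2 - 14 * k) * Real.log (2 ^ a k) - Real.log 2) ∧
    Real.log (cc k (2 ^ a k)) +
      beta k (2 ^ a k) * (1 + ((8 * k + 1 : ℝ) ^ 4 + 1) * Real.log (2 ^ a k)) ≤ 1000000) ∧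
  Tendsto (fun k : ℕ => cc k (2 ^ a k) - 1 + 2 * beta k (2 ^ a k)) atTop (𝓝 0)

/-- EC-BIN: lower half of the binomial distribution -/
def S_BIN : Prop := ∀ k : ℕ, 1 ≤ k →
  (1 / 4 : ℝ) ≤ (1 / 2 : ℝ) ^ (26 * k) * ∑ n ∈ Icc k (13 * k), ((26 * k).choose n : ℝ)

end

end Pool.Agent.Y866.EC
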