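import Pool.Agent.Y866.EC.Lin

set_option autoImplicit false
set_option maxHeartbeats 4000000

open Finset Filter Topology

namespace Pool.Agent.Y866.EC

noncomputable section

theorem sum_choose_pow (t : ℕ) (x : ℝ) :
    (1 / 2 : ℝ) ^ t * ∑ n ∈ range (t + 1), (t.choose n : ℝ) * x ^ n = ((1 + x) / 2) ^ t := by
  have h := add_pow x 1 t
  simp only [one_pow, mul_one] at h
  have h2 : ∑ n ∈ range (t + 1), (t.choose n : ℝ) * x ^ n = (x + 1) ^ t := by
    rw [h]
    exact Finset.sum_congr rfl fun n _ => by ring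
  rw [h2, ← mul_pow]
  congr 1
  ring

theorem sum_choose_one (t : ℕ) :
    (1 / 2 : ℝ) ^ t * ∑ n ∈ range (t + 1), (t.choose n : ℝ) = 1 := by
  have h := sum_choose_pow t 1
  simpa using h

section

variable (F : Type) [Field F] [Fintype F] [DecidableEq F] (m : ℕ) [NeZero m]
  [Fintype (Ar F m ≃ₗ[F] Ar F m)] [DecidableEq (Ar F m ≃ₗ[F] Ar F m)]

/-- good words: no zero letter and at least `m` different letters -/
def Gd (w : List F) : Prop := (0 : F) ∉ w ∧ m ≤ w.toFinset.card

instance : DecidablePred (Gd F m) := fun w => by unfold Gd; infer_instance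

theorem good_le (hcard : S_CARD) (hvdm : S_VDM) (hdens : S_DENS) (hw2 : S_WORD2)
    (hq : 3 ≤ Fintype.card F) (t : ℕ) (y : (Ar F m ≃ₗ[F] Ar F m) × Multiplicative F) :
    part (Sl F m) (Gd F m) t y ≤ cq F ^ t /
      (Fintype.card ((Ar F m ≃ₗ[F] Ar F m) × Multiplicative F) : ℝ) := by
  have hcq := cq_ge hq
  have hq0 : (0 : ℝ) < Fintype.card F := by
    have : 0 < Fintype.card F := by omega
    exact_mod_cast this
  set N : ℝ := (Fintype.card (Ar F m ≃ₗ[F] Ar F m) : ℝ) with hN
  have hN0 : 0 < N := by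
    rw [hN]; exact_mod_cast Fintype.card_pos
  have hG : (Fintype.card ((Ar F m ≃ₗ[F] Ar F m) × Multiplicative F) : ℝ) =
      N * Fintype.card F := by
    rw [Fintype.card_prod, Fintype.card_multiplicative]
    push_cast
    rfl
  rw [hG]
  have hterm : ∀ n ∈ range (t + 1), (t.choose n : ℝ) *
      (W n (fun w => if Gd F m w then (if w.sum = Multiplicative.toAdd y.2 then
        mu (Sl F m) w y.1 else 0) else 0) / (Fintype.card F : ℝ) ^ n) ≤
      (t.choose n : ℝ) * (cq F ^ t / (N * Fintype.card F)) := by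
    intro n hn
    refine mul_le_mul_of_nonneg_left ?_ (by positivity)
    rcases n with _ | n
    · change (if Gd F m [] then _ else (0 : ℝ)) / _ ≤ _
      have hm : 0 < m := Nat.pos_of_ne_zero (NeZero.ne m)
      rw [if_neg]
      · rw [zero_div]
        positivity
      · rintro ⟨_, h⟩
        simp at h
        omega
    · have h1 : W (n + 1) (fun w => if Gd F m w then (if w.sum = Multiplicative.toAdd y.2 then
          mu (Sl F m) w y.1 else 0) else 0) ≤
          W (n + 1) (fun w => (if w.sum = Multiplicative.toAdd y.2 then (1 : ℝ) else 0) *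
            (cq F ^ (n + 1) / N)) := by
        refine W_mono _ _ _ fun w hw => ?_
        by_cases hg : Gd F m w
        · rw [if_pos hg]
          by_cases hs : w.sum = Multiplicative.toAdd y.2
          · rw [if_pos hs, if_pos hs, one_mul]
            have h2 := dens_full F m hcard hvdm hdens hq w hg.1 hg.2 y.1
            rw [hw] at h2
            exact h2
          · rw [if_neg hs, if_neg hs, zero_mul]
        · rw [if_neg hg]
          split_ifs <;> positivity
      rw [W_mul, (hw2 F).1 n (Multiplicative.toAdd y.2)] at h1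
      calc W (n + 1) _ / (Fintype.card F : ℝ) ^ (n + 1)
          ≤ ((Fintype.card F : ℝ) ^ n * (cq F ^ (n + 1) / N)) / (Fintype.card F : ℝ) ^ (n + 1) :=
            div_le_div_of_nonneg_right h1 (by positivity)
        _ = cq F ^ (n + 1) / (N * Fintype.card F) := by
            rw [pow_succ (Fintype.card F : ℝ) n]
            field_simp
        _ ≤ cq F ^ t / (N * Fintype.card F) := by
            apply div_le_div_of_nonneg_right _ (by positivity)
            apply pow_le_pow_right₀ hcq
            have := Finset.mem_range.1 hn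
            omega
  unfold part
  calc (1 / 2 : ℝ) ^ t * _ ≤ (1 / 2 : ℝ) ^ t * ∑ n ∈ range (t + 1), (t.choose n : ℝ) *
        (cq F ^ t / (N * Fintype.card F)) :=
        mul_le_mul_of_nonneg_left (Finset.sum_le_sum hterm) (by positivity)
    _ = cq F ^ t / (N * Fintype.card F) := by
        rw [← Finset.sum_mul, ← mul_assoc, sum_choose_one, one_mul]

theorem bad_le (hconj : S_CONJ) (hw2 : S_WORD2) (hq : 3 ≤ Fintype.card F) (t : ℕ) :
    ∑ y, part (Sl F m) (fun w => ¬ Gd F m w) t y ≤ t / (Fintype.card F : ℝ) +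
      2 ^ m * (3 / 4 + t / (4 * (Fintype.card F : ℝ))) ^ t := by
  have hq0 : (0 : ℝ) < Fintype.card F := by
    have : 0 < Fintype.card F := by omega
    exact_mod_cast this
  set q : ℝ := (Fintype.card F : ℝ) with hqd
  have hS : ∀ c, (Sl F m c).Nonempty := fun c => Sl_nonempty F m hconj c
  have h1 := part_sum (Sl F m) hS (fun w => ¬ Gd F m w) t univ
  rw [Finset.univ_product_univ] at h1
  rw [h1]
  have hterm : ∀ n ∈ range (t + 1), (t.choose n : ℝ) *
      (W n (fun w => if ¬ Gd F m w then ∑ g, mu (Sl F m) w g else 0) / q ^ n) ≤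
      (t.choose n : ℝ) * (t / q) + 2 ^ m * ((t.choose n : ℝ) * (1 / 2 + t / (2 * q)) ^ n) := by
    intro n hn
    have hnt : n ≤ t := by
      have := Finset.mem_range.1 hn
      omega
    have hntr : (n : ℝ) ≤ t := by exact_mod_cast hnt
    have h2 : W n (fun w => if ¬ Gd F m w then ∑ g, mu (Sl F m) w g else 0) ≤
        W n (fun w => (if (0 : F) ∈ w then (1 : ℝ) else 0) +
          (if w.toFinset.card < m then (1 : ℝ) else 0)) := by
      refine W_mono n _ _ fun w _ => ?_
      rw [mu_sum (Sl F m) hS w]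
      by_cases h0 : (0 : F) ∈ w
      · rw [if_pos h0]
        split_ifs <;> norm_num
      · by_cases hc : w.toFinset.card < m
        · rw [if_pos hc]
          split_ifs <;> norm_num
        · rw [if_neg (by
            intro h
            exact h ⟨h0, not_lt.1 hc⟩)]
          split_ifs <;> norm_num
    rw [W_add] at h2
    have h3 : W n (fun w => if (0 : F) ∈ w then (1 : ℝ) else 0) / q ^ n ≤ t / q := by
      have h4 := (hw2 F).2.1 n
      rw [← hqd] at h4
      rw [div_le_div_iff₀ (by positivity) hq0]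
      refine h4.trans ?_
      exact mul_le_mul_of_nonneg_right hntr (by positivity)
    have h5 : W n (fun w : List F => if w.toFinset.card < m then (1 : ℝ) else 0) / q ^ n ≤
        2 ^ m * (1 / 2 + t / (2 * q)) ^ n := by
      have h6 := (hw2 F).2.2 m n
      rw [← hqd] at h6
      rw [div_le_iff₀ (by positivity)]
      refine h6.trans ?_
      rw [mul_assoc, ← mul_pow]
      refine mul_le_mul_of_nonneg_left ?_ (by positivity)
      refine pow_le_pow_left₀ (by positivity) ?_ n
      have e : (1 / 2 + t / (2 * q)) * q = (q + t) / 2 := by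
        field_simp
      rw [e]
      linarith
    have h7 : W n (fun w => if ¬ Gd F m w then ∑ g, mu (Sl F m) w g else 0) / q ^ n ≤
        t / q + 2 ^ m * (1 / 2 + t / (2 * q)) ^ n := by
      calc _ ≤ (W n (fun w => if (0 : F) ∈ w then (1 : ℝ) else 0) +
            W n (fun w : List F => if w.toFinset.card < m then (1 : ℝ) else 0)) / q ^ n :=
            div_le_div_of_nonneg_right h2 (by positivity)
        _ = _ + _ := add_div _ _ _
        _ ≤ _ := add_le_add h3 h5
    have h8 := mul_le_mul_of_nonneg_left h7 (by positivity : (0 : ℝ) ≤ (t.choose n : ℝ))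
    refine h8.trans (le_of_eq ?_)
    ring
  calc (1 / 2 : ℝ) ^ t * _ ≤ (1 / 2 : ℝ) ^ t * ∑ n ∈ range (t + 1), ((t.choose n : ℝ) * (t / q) +
        2 ^ m * ((t.choose n : ℝ) * (1 / 2 + t / (2 * q)) ^ n)) :=
        mul_le_mul_of_nonneg_left (Finset.sum_le_sum hterm) (by positivity)
    _ = ((1 / 2 : ℝ) ^ t * ∑ n ∈ range (t + 1), (t.choose n : ℝ)) * (t / q) +
        2 ^ m * ((1 / 2 : ℝ) ^ t * ∑ n ∈ range (t + 1),
          (t.choose n : ℝ) * (1 / 2 + t / (2 * q)) ^ n) := by
        rw [Finset.sum_add_distrib, ← Finset.sum_mul, ← Finset.mul_sum]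
        ring
    _ = t / q + 2 ^ m * (3 / 4 + t / (4 * q)) ^ t := by
        rw [sum_choose_one, sum_choose_pow, one_mul]
        congr 3
        field_simp
        ring

/-- positions of the rare letter -/
def In (k n : ℕ) : Finset ℕ := (range n).filter (fun i => i ≤ 7 * k ∧ n - 1 - i ≤ 7 * k)

theorem In_card {k n : ℕ} (hk : 1 ≤ k) (h1 : k ≤ n) (h2 : n ≤ 13 * k) : k ≤ (In k n).card := by
  have h : Ico (n - 1 - 7 * k) (n - 1 - 7 * k + k) ⊆ In k n := by
    intro i hi
    rw [Finset.mem_Ico] at hi
    rw [In, Finset.mem_filter, Finset.mem_range]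
    omega
  calc k = (Ico (n - 1 - 7 * k) (n - 1 - 7 * k + k)).card := by
        rw [Nat.card_Ico]; omega
    _ ≤ _ := Finset.card_le_card h

theorem lower (hconj : S_CONJ) (hdens : S_DENS) (hw1 : S_WORD1) (hw3 : S_WORD3) (hbin : S_BIN)
    (hq : 3 ≤ Fintype.card F) (k : ℕ) (hk : 1 ≤ k) :
    (1 / 4) * (k / (Fintype.card F : ℝ)) * (1 - 1 / (Fintype.card F : ℝ)) ^ (26 * k) ≤
      ∑ y ∈ (EE F m (7 * k)) ×ˢ (univ : Finset (Multiplicative F)),
        pt (SS (Sl F m)) (26 * k) y := by
  have hq1 : (3 : ℝ) ≤ Fintype.card F := by exact_mod_cast hq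
  set q : ℝ := (Fintype.card F : ℝ) with hqd
  have hS : ∀ c, (Sl F m c).Nonempty := fun c => Sl_nonempty F m hconj c
  have hκ : 0 < Nat.card (FixS (Zc m (0 : F))) := by
    have := (hS 0).card_pos
    rwa [Sl_card F m hconj 0] at this
  have h1 : ∀ y, part (Sl F m) (fun _ => True) (26 * k) y ≤ pt (SS (Sl F m)) (26 * k) y := by
    intro y
    rw [pt_split (Sl F m) hw1 _ hκ (Sl_card F m hconj) (fun _ => True) (26 * k) y]
    have := part_nonneg (Sl F m) (fun w => ¬ True) (26 * k) y
    linarith
  refine le_trans ?_ (Finset.sum_le_sum fun y _ => h1 y)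
  rw [part_sum (Sl F m) hS (fun _ => True) (26 * k) (EE F m (7 * k))]
  have hr : 0 ≤ 1 - 1 / q := by
    have : 1 / q ≤ 1 := by
      rw [div_le_one (by linarith)]
      linarith
    linarith
  have hr1 : 1 - 1 / q ≤ 1 := by
    have : 0 < 1 / q := by positivity
    linarith
  set A : ℝ := (k / q) * (1 - 1 / q) ^ (26 * k) with hA
  have hA0 : 0 ≤ A := by positivity
  have hterm : ∀ n ∈ Icc k (13 * k), ((26 * k).choose n : ℝ) * A ≤ ((26 * k).choose n : ℝ) *
      (W n (fun w => if True then ∑ g ∈ EE F m (7 * k), mu (Sl F m) w g else 0) / q ^ n) := by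
    intro n hn
    rw [Finset.mem_Icc] at hn
    refine mul_le_mul_of_nonneg_left ?_ (by positivity)
    have h2 : W n (fun w => ∑ i ∈ In k n, Ni (F := F) i w) ≤
        W n (fun w => if True then ∑ g ∈ EE F m (7 * k), mu (Sl F m) w g else 0) := by
      refine W_mono n _ _ fun w hw => ?_
      rw [if_pos trivial]
      by_cases hall : ∀ i ∈ In k n, Ni (F := F) i w = 0
      · rw [Finset.sum_eq_zero hall]
        exact Finset.sum_nonneg fun g _ => mu_nonneg _ w g
      · push Not at hall
        obtain ⟨i, hi, hne⟩ := hall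
        obtain ⟨u, u', rfl, hu, hu0, hu0'⟩ := (hw3 F).2.2 i w hne
        refine (((hw3 F).2.1 (In k n) _).2).trans ?_
        rw [In, Finset.mem_filter, Finset.mem_range] at hi
        have hlen : u'.length ≤ 7 * k := by
          rw [List.length_append, List.length_cons] at hw
          omega
        have h3 : ∑ g ∈ EE F m (7 * k), mu (Sl F m) (u ++ 0 :: u') g =
            ∑ g, mu (Sl F m) (u ++ 0 :: u') g := by
          refine Finset.sum_subset (Finset.subset_univ _) fun g _ hg => ?_
          by_contra hne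
          exact hg (star_mem F m hdens hq (7 * k) u u' hu0 hu0' (by omega) hlen g hne)
        rw [h3, mu_sum (Sl F m) hS]
    rw [W_sum] at h2
    have hn1 : 1 ≤ n := by omega
    obtain ⟨n', rfl⟩ : ∃ n', n = n' + 1 := ⟨n - 1, by omega⟩
    have h4 : ∀ i ∈ In k (n' + 1), W (n' + 1) (Ni (F := F) i) = (q - 1) ^ n' := by
      intro i hi
      rw [In, Finset.mem_filter, Finset.mem_range] at hi
      exact (hw3 F).1 n' i (by omega)
    have h5 : W (n' + 1) (fun w => ∑ i ∈ In k (n' + 1), Ni (F := F) i w) =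
        (In k (n' + 1)).card * (q - 1) ^ n' := by
      rw [W_sum]
      rw [Finset.sum_congr rfl h4, Finset.sum_const, nsmul_eq_mul]
    rw [← W_sum, h5] at h2
    have h6 : (k : ℝ) ≤ (In k (n' + 1)).card := by
      exact_mod_cast In_card hk hn.1 hn.2
    have hq2 : 0 ≤ q - 1 := by linarith
    have h7 : (k : ℝ) * (q - 1) ^ n' ≤
        W (n' + 1) (fun w => if True then ∑ g ∈ EE F m (7 * k), mu (Sl F m) w g else 0) :=
      (mul_le_mul_of_nonneg_right h6 (by positivity)).trans h2
    rw [le_div_iff₀ (by positivity)]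
    refine le_trans ?_ h7
    have h8 : (1 - 1 / q) ^ (26 * k) ≤ (1 - 1 / q) ^ n' := by
      apply pow_le_pow_of_le_one hr hr1
      omega
    have h9 : (1 - 1 / q) ^ n' * q ^ n' = (q - 1) ^ n' := by
      rw [← mul_pow]
      congr 1
      field_simp
    calc A * q ^ (n' + 1) = (k : ℝ) * ((1 - 1 / q) ^ (26 * k) * q ^ n') := by
          rw [hA, pow_succ]
          field_simp
      _ ≤ (k : ℝ) * ((1 - 1 / q) ^ n' * q ^ n') := by
          gcongr
      _ = _ := by rw [h9]
  have hsub : Icc k (13 * k) ⊆ range (26 * k + 1) := by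
    intro n hn
    rw [Finset.mem_Icc] at hn
    rw [Finset.mem_range]
    omega
  have h10 := Finset.sum_le_sum hterm
  have h11 : ∑ n ∈ Icc k (13 * k), ((26 * k).choose n : ℝ) *
      (W n (fun w => if True then ∑ g ∈ EE F m (7 * k), mu (Sl F m) w g else 0) / q ^ n) ≤
      ∑ n ∈ range (26 * k + 1), ((26 * k).choose n : ℝ) *
      (W n (fun w => if True then ∑ g ∈ EE F m (7 * k), mu (Sl F m) w g else 0) / q ^ n) := by
    refine Finset.sum_le_sum_of_subset_of_nonneg hsub fun n _ _ => ?_
    refine mul_nonneg (by positivity) (div_nonneg (W_nonneg n _ fun w => ?_) (by positivity))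
    rw [if_pos trivial]
    exact Finset.sum_nonneg fun g _ => mu_nonneg _ w g
  have h12 := mul_le_mul_of_nonneg_left (h10.trans h11)
    (by positivity : (0 : ℝ) ≤ (1 / 2) ^ (26 * k))
  refine le_trans ?_ h12
  rw [← Finset.sum_mul, ← mul_assoc]
  have h13 := mul_le_mul_of_nonneg_right (hbin k hk) hA0
  refine le_trans (le_of_eq ?_) h13
  rw [hA]
  ring

end

end

end Pool.Agent.Y866.EC
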