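import Pool.Agent.Y866.EC.Dec
import Pool.Agent.Results.MP_1e9518_pr.EntropyPrecutoff

set_option autoImplicit false
set_option maxHeartbeats 4000000

open Finset Filter Topology
open scoped Pointwise

namespace Pool.Agent.Y866.EC

open Pool.Agent.Results.MP_1e9518_pr.EntropyPrecutoff

noncomputable section

section grp

variable {Γ : Type} [Group Γ] [DecidableEq Γ]

/-- the Cayley graph -/
def cay (S : Finset Γ) (h1 : (1 : Γ) ∉ S) (hinv : ∀ s ∈ S, s⁻¹ ∈ S) : SimpleGraph Γ where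
  Adj x y := x⁻¹ * y ∈ S
  symm := ⟨fun x y h => by
    have := hinv _ h
    rwa [mul_inv_rev, inv_inv] at this⟩
  loopless := ⟨fun x h => h1 (by simpa using h)⟩

instance (S : Finset Γ) (h1 : (1 : Γ) ∉ S) (hinv : ∀ s ∈ S, s⁻¹ ∈ S) :
    DecidableRel (cay S h1 hinv).Adj := fun x y => inferInstanceAs (Decidable (x⁻¹ * y ∈ S))

theorem qn_nonneg (S : Finset Γ) : ∀ (n : ℕ) (z : Γ), 0 ≤ qn S n z
  | 0, z => by
      change 0 ≤ (if z = 1 then (1 : ℝ) else 0)
      split_ifs <;> norm_num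
  | n + 1, z => by
      change 0 ≤ (∑ s ∈ S, qn S n (s⁻¹ * z)) / (S.card : ℝ)
      exact div_nonneg (Finset.sum_nonneg fun s _ => qn_nonneg S n _) (by positivity)

theorem qn_supp (S : Finset Γ) : ∀ (n : ℕ) (z : Γ), qn S n z ≠ 0 → z ∈ (insert 1 S) ^ n
  | 0, z, h => by
      have : z = 1 := by
        by_contra hz
        exact h (by simp [qn, hz])
      simp [this]
  | n + 1, z, h => by
      have : ∃ s ∈ S, qn S n (s⁻¹ * z) ≠ 0 := by
        by_contra hcon
        push Not at hcon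
        apply h
        change (∑ s ∈ S, qn S n (s⁻¹ * z)) / (S.card : ℝ) = 0
        rw [Finset.sum_eq_zero hcon, zero_div]
      obtain ⟨s, hs, h2⟩ := this
      have h3 := qn_supp S n _ h2
      rw [pow_succ']
      have h4 := Finset.mul_mem_mul (Finset.mem_insert_of_mem (a := s) (b := (1 : Γ)) hs) h3
      simpa using h4

theorem pt_nonneg (S : Finset Γ) (t : ℕ) (z : Γ) : 0 ≤ pt S t z := by
  unfold pt
  exact mul_nonneg (by positivity) (Finset.sum_nonneg fun n _ =>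
    mul_nonneg (by positivity) (qn_nonneg S n z))

theorem pt_supp (S : Finset Γ) (t : ℕ) (z : Γ) (h : pt S t z ≠ 0) : z ∈ (insert 1 S) ^ t := by
  have : ∃ n ∈ range (t + 1), qn S n z ≠ 0 := by
    by_contra hcon
    push Not at hcon
    apply h
    unfold pt
    rw [Finset.sum_eq_zero, mul_zero]
    intro n hn
    rw [hcon n hn, mul_zero]
  obtain ⟨n, hn, h2⟩ := this
  have h3 := qn_supp S n z h2
  exact Finset.pow_subset_pow_right (Finset.mem_insert_self _ _)
    (by have := Finset.mem_range.1 hn; omega) h3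

variable [Fintype Γ]

theorem cay_degree (S : Finset Γ) (h1 : (1 : Γ) ∉ S) (hinv : ∀ s ∈ S, s⁻¹ ∈ S) (x : Γ) :
    (cay S h1 hinv).degree x = S.card := by
  rw [← SimpleGraph.card_neighborFinset_eq_degree]
  refine Finset.card_bij' (fun y _ => x⁻¹ * y) (fun s _ => x * s) ?_ ?_ ?_ ?_
  · intro y hy
    rw [SimpleGraph.mem_neighborFinset] at hy
    exact hy
  · intro s hs
    rw [SimpleGraph.mem_neighborFinset]
    change x⁻¹ * (x * s) ∈ S
    simpa using hs
  · intro y _; simp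
  · intro s _; simp

theorem cay_trans (S : Finset Γ) (h1 : (1 : Γ) ∉ S) (hinv : ∀ s ∈ S, s⁻¹ ∈ S) :
    VertexTransitive (cay S h1 hinv) := by
  intro x y
  refine ⟨⟨Equiv.mulLeft (y * x⁻¹), ?_⟩, ?_⟩
  · intro a b
    change ((y * x⁻¹) * a)⁻¹ * ((y * x⁻¹) * b) ∈ S ↔ a⁻¹ * b ∈ S
    have : ((y * x⁻¹) * a)⁻¹ * ((y * x⁻¹) * b) = a⁻¹ * b := by group
    rw [this]
  · change (y * x⁻¹) * x = y
    group

theorem lazy_eq (S : Finset Γ) (h1 : (1 : Γ) ∉ S) (hinv : ∀ s ∈ S, s⁻¹ ∈ S) :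
    lazySRW (cay S h1 hinv) = Pm S := by
  ext x y
  unfold lazySRW Pm
  rw [cay_degree]
  congr 1

theorem qn_sum (S : Finset Γ) (hS : S.Nonempty) : ∀ (n : ℕ), ∑ z, qn S n z = 1
  | 0 => by
      change ∑ z : Γ, (if z = 1 then (1 : ℝ) else 0) = 1
      simp
  | n + 1 => by
      change ∑ z : Γ, (∑ s ∈ S, qn S n (s⁻¹ * z)) / (S.card : ℝ) = 1
      rw [← Finset.sum_div, Finset.sum_comm]
      have h1 : ∀ s ∈ S, ∑ g : Γ, qn S n (s⁻¹ * g) = 1 := by
        intro s _
        rw [← qn_sum S hS n]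
        exact Fintype.sum_equiv (Equiv.mulLeft s⁻¹) _ _ fun g => rfl
      rw [Finset.sum_congr rfl h1]
      have h2 : (S.card : ℝ) ≠ 0 := by
        have := hS.card_pos
        positivity
      simp [h2]

theorem pt_sum (S : Finset Γ) (hS : S.Nonempty) (t : ℕ) : ∑ z, pt S t z = 1 := by
  unfold pt
  rw [← Finset.mul_sum, Finset.sum_comm]
  have : ∀ n ∈ range (t + 1), ∑ z, (t.choose n : ℝ) * qn S n z = (t.choose n : ℝ) := by
    intro n _
    rw [← Finset.mul_sum, qn_sum S hS n, mul_one]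
  rw [Finset.sum_congr rfl this, sum_choose_one]

theorem relEnt_eq (hwalk : S_WALK) (S : Finset Γ) (hS : S.Nonempty) (t : ℕ) :
    relEnt (Pm S) t = ∑ z, pt S t z * Real.log (pt S t z / (1 / (Fintype.card Γ : ℝ))) := by
  unfold relEnt
  have h : ∀ x : Γ, ∑ y, ((Pm S) ^ t) x y * Real.log (((Pm S) ^ t) x y /
      (1 / (Fintype.card Γ : ℝ))) =
      ∑ z, pt S t z * Real.log (pt S t z / (1 / (Fintype.card Γ : ℝ))) := by
    intro x
    simp only [hwalk Γ S hS t x]
    exact Fintype.sum_equiv (Equiv.mulLeft x⁻¹) _ _ fun g => rfl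
  simp only [h]
  exact ciSup_const

theorem d_eq (hwalk : S_WALK) (S : Finset Γ) (hS : S.Nonempty) (t : ℕ) :
    d (Pm S) t = (1 / 2 : ℝ) * ∑ z, |pt S t z - 1 / (Fintype.card Γ : ℝ)| := by
  unfold d
  have h : ∀ x : Γ, (1 / 2 : ℝ) * ∑ y, |((Pm S) ^ t) x y - 1 / (Fintype.card Γ : ℝ)| =
      (1 / 2 : ℝ) * ∑ z, |pt S t z - 1 / (Fintype.card Γ : ℝ)| := by
    intro x
    simp only [hwalk Γ S hS t x]
    congr 1
    exact Fintype.sum_equiv (Equiv.mulLeft x⁻¹) _ _ fun g => rfl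
  simp only [h]
  exact ciSup_const

/-- contraction at time `t` -/
def Ctr (S : Finset Γ) (t : ℕ) (ε : ℝ) : Prop := ∀ (f : Γ → ℝ) (M : ℝ), ∑ y, f y = 0 →
  (∀ y, |f y| ≤ M) → ∀ x, |∑ y, ((Pm S) ^ t) x y * f y| ≤ ε * M

theorem ctr_of (hwalk : S_WALK) (hent4 : S_ENT4) (S : Finset Γ) (hS : S.Nonempty) (t : ℕ)
    (g b : Γ → ℝ) (c β : ℝ) (hg : ∀ y, 0 ≤ g y) (hb : ∀ y, 0 ≤ b y)
    (hp : ∀ y, pt S t y = g y + b y) (hgc : ∀ y, g y ≤ c / (Fintype.card Γ : ℝ))
    (hbβ : ∑ y, b y ≤ β) : Ctr S t (c - 1 + 2 * β) := by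
  intro f M hf hM x
  have h := hent4 Γ (pt S t) g b (fun z => f (x * z)) c β M hg hb hp (pt_sum S hS t) hgc hbβ
    (by
      rw [← hf]
      exact Fintype.sum_equiv (Equiv.mulLeft x) _ _ fun g => rfl) (fun y => hM _)
  have e : ∑ y, ((Pm S) ^ t) x y * f y = ∑ z, pt S t z * f (x * z) := by
    simp only [hwalk Γ S hS t x]
    refine Fintype.sum_equiv (Equiv.mulLeft x⁻¹) _ _ fun g => ?_
    simp
  rw [e]
  exact h

theorem Pm_row (S : Finset Γ) (hS : S.Nonempty) (x : Γ) : ∑ y, Pm S x y = 1 := by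
  unfold Pm
  rw [Finset.sum_add_distrib]
  have h1 : ∑ y : Γ, (if x = y then (1 / 2 : ℝ) else 0) = 1 / 2 := by simp
  have h2 : ∑ y : Γ, (if x⁻¹ * y ∈ S then 1 / (2 * (S.card : ℝ)) else 0) = 1 / 2 := by
    have e : ∑ y : Γ, (if x⁻¹ * y ∈ S then 1 / (2 * (S.card : ℝ)) else 0) =
        ∑ z : Γ, (if z ∈ S then 1 / (2 * (S.card : ℝ)) else 0) :=
      Fintype.sum_equiv (Equiv.mulLeft x⁻¹) _ _ fun g => rfl
    rw [e, ← Finset.sum_filter, Finset.filter_mem_eq_inter, Finset.univ_inter, Finset.sum_const,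
      nsmul_eq_mul]
    have : (S.card : ℝ) ≠ 0 := by
      have := hS.card_pos
      positivity
    field_simp
  rw [h1, h2]
  norm_num

theorem Pm_symm (S : Finset Γ) (hinv : ∀ s ∈ S, s⁻¹ ∈ S) (x y : Γ) : Pm S x y = Pm S y x := by
  unfold Pm
  have h1 : (x = y) ↔ (y = x) := eq_comm
  have h2 : (x⁻¹ * y ∈ S) ↔ (y⁻¹ * x ∈ S) := by
    constructor
    · intro h
      have := hinv _ h
      rwa [mul_inv_rev, inv_inv] at this
    · intro h
      have := hinv _ h
      rwa [mul_inv_rev, inv_inv] at this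
  simp only [h1, h2]

/-- eigenfunctions under contraction -/
theorem eig_bound (S : Finset Γ) (t : ℕ) (ε : ℝ) (hc : Ctr S t ε) (f : Γ → ℝ) (hf : f ≠ 0)
    (hf0 : ∑ y, f y = 0) (lam : ℝ) (hl : (Pm S).mulVec f = lam • f) : |lam| ^ t ≤ ε := by
  have h1 : ∀ n : ℕ, ((Pm S) ^ n).mulVec f = lam ^ n • f := by
    intro n
    induction n with
    | zero => simp
    | succ n ih =>
      rw [pow_succ, ← Matrix.mulVec_mulVec, hl, Matrix.mulVec_smul, ih, smul_smul, pow_succ]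
      congr 1
      ring
  obtain ⟨x, hx⟩ := Finite.exists_max (fun y => |f y|)
  have hpos : 0 < |f x| := by
    by_contra hcon
    apply hf
    funext y
    have h2 := hx y
    have h3 : |f y| = 0 := le_antisymm (h2.trans (not_lt.1 hcon)) (abs_nonneg _)
    exact abs_eq_zero.1 h3
  have h4 := hc f |f x| hf0 hx x
  have h5 := congrFun (h1 t) x
  rw [Pi.smul_apply, smul_eq_mul] at h5
  have h6 : ∑ y, ((Pm S) ^ t) x y * f y = lam ^ t * f x := h5
  rw [h6, abs_mul, abs_pow] at h4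
  exact le_of_mul_le_mul_right h4 hpos

theorem spec_bound (S : Finset Γ) (hS : S.Nonempty) (hinv : ∀ s ∈ S, s⁻¹ ∈ S) (t : ℕ) (ε : ℝ)
    (hc : Ctr S t ε) (lam : ℝ) (hlam : lam ∈ spectrum ℝ (Pm S)) (h1 : lam ≠ 1) :
    |lam| ^ t ≤ ε := by
  rw [← Matrix.spectrum_toLin', ← Module.End.hasEigenvalue_iff_mem_spectrum] at hlam
  obtain ⟨f, hf⟩ := hlam.exists_hasEigenvector
  have hf0 := hf.2
  have hf1 := hf.apply_eq_smul
  rw [Matrix.toLin'_apply] at hf1
  refine eig_bound S t ε hc f hf0 ?_ lam hf1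
  have h2 : ∑ x, (Pm S).mulVec f x = ∑ y, f y := by
    simp only [Matrix.mulVec, dotProduct]
    rw [Finset.sum_comm]
    refine Finset.sum_congr rfl fun y _ => ?_
    rw [← Finset.sum_mul]
    have h3 : ∑ x, Pm S x y = 1 := by
      rw [← Pm_row S hS y]
      exact Finset.sum_congr rfl fun x _ => Pm_symm S hinv x y
    rw [h3, one_mul]
  rw [hf1] at h2
  simp only [Pi.smul_apply, smul_eq_mul, ← Finset.mul_sum] at h2
  have h4 : (lam - 1) * ∑ y, f y = 0 := by linarith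
  rcases mul_eq_zero.1 h4 with h5 | h5
  · exact absurd (by linarith) h1
  · exact h5

theorem lam2_le (S : Finset Γ) (hS : S.Nonempty) (hinv : ∀ s ∈ S, s⁻¹ ∈ S) (t : ℕ) (ε θ : ℝ)
    (hc : Ctr S t ε) (hθ : 0 ≤ θ) (h : ε < θ ^ t) : lambda2 (Pm S) ≤ θ := by
  apply Real.sSup_le _ hθ
  rintro lam ⟨hl, hl1⟩
  have h1 := spec_bound S hS hinv t ε hc lam hl (by simpa using hl1)
  by_contra hcon
  push Not at hcon
  have h2 : θ ^ t ≤ |lam| ^ t := pow_le_pow_left₀ hθ (hcon.le.trans (le_abs_self _)) t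
  linarith

theorem connected (S : Finset Γ) (h1 : (1 : Γ) ∉ S) (hinv : ∀ s ∈ S, s⁻¹ ∈ S)
    (hS : S.Nonempty) (t : ℕ) (ε : ℝ) (hc : Ctr S t ε) (hε : ε < 1) :
    (cay S h1 hinv).Connected := by
  classical
  rw [SimpleGraph.connected_iff_exists_forall_reachable]
  refine ⟨1, ?_⟩
  by_contra hcon
  push Not at hcon
  obtain ⟨w, hw⟩ := hcon
  let h : Γ → ℝ := fun y => if (cay S h1 hinv).Reachable 1 y then 1 else 0
  have hP : ∀ x, ∑ y, Pm S x y * h y = h x := by
    intro x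
    have h3 : ∀ y, Pm S x y * h y = Pm S x y * h x := by
      intro y
      by_cases hxy : Pm S x y = 0
      · rw [hxy]; simp
      · have h4 : x = y ∨ x⁻¹ * y ∈ S := by
          by_contra h5
          push Not at h5
          apply hxy
          unfold Pm
          rw [if_neg h5.1, if_neg h5.2, add_zero]
        rcases h4 with h4 | h4
        · rw [h4]
        · have h5 : (cay S h1 hinv).Adj x y := h4
          have h6 : (cay S h1 hinv).Reachable 1 y ↔ (cay S h1 hinv).Reachable 1 x :=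
            ⟨fun h => h.trans h5.symm.reachable, fun h => h.trans h5.reachable⟩
          simp only [h, h6]
    rw [Finset.sum_congr rfl fun y _ => h3 y, ← Finset.sum_mul, Pm_row S hS, one_mul]
  set a : ℝ := (∑ y, h y) / (Fintype.card Γ : ℝ) with ha
  have hN : (0 : ℝ) < Fintype.card Γ := by exact_mod_cast Fintype.card_pos
  let f : Γ → ℝ := fun y => h y - a
  have hf0 : ∑ y, f y = 0 := by
    simp only [f, Finset.sum_sub_distrib, Finset.sum_const, Finset.card_univ, nsmul_eq_mul]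
    rw [ha]
    field_simp
    ring
  have hfne : f ≠ 0 := by
    intro hf
    have h7 := congrFun hf 1
    have h8 := congrFun hf w
    simp only [f, h, Pi.zero_apply] at h7 h8
    rw [if_pos (SimpleGraph.Reachable.refl _)] at h7
    rw [if_neg hw] at h8
    linarith
  have hl : (Pm S).mulVec f = (1 : ℝ) • f := by
    funext x
    rw [one_smul]
    simp only [Matrix.mulVec, dotProduct, f, mul_sub, Finset.sum_sub_distrib]
    rw [hP x, ← Finset.sum_mul, Pm_row S hS, one_mul]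
  have h9 := eig_bound S t ε hc f hfne hf0 1 hl
  rw [abs_one, one_pow] at h9
  linarith

end grp

end

end Pool.Agent.Y866.EC
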