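import Pool.Agent.Y866.EC.Wrd

set_option autoImplicit false
set_option maxHeartbeats 4000000

open Finset Filter Topology

namespace Pool.Agent.Y866.EC

noncomputable section

theorem mem_FixS {F V : Type} [Field F] [AddCommGroup V] [Module F V] {Z : Submodule F V}
    {g : V ≃ₗ[F] V} : g ∈ FixS Z ↔ ∀ v ∈ Z, g v = v := Iff.rfl

theorem mem_Zc {F : Type} [Field F] {m : ℕ} {c : F} {v : Ar F m} :
    v ∈ Zc m c ↔ ∀ j, ∑ i : Fin m, c ^ (i : ℕ) * v i j = 0 := Iff.rfl

theorem mem_ZW {F : Type} [Field F] {m : ℕ} : ∀ {w : List F} {v : Ar F m},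
    v ∈ ZW m w ↔ ∀ c ∈ w, v ∈ Zc m c
  | [], v => by simp [ZW]
  | c :: w, v => by
      rw [ZW, Submodule.mem_inf, mem_ZW (w := w)]
      simp

theorem mem_Zc_zero {F : Type} [Field F] {m : ℕ} [NeZero m] {v : Ar F m} :
    v ∈ Zc m (0 : F) ↔ ∀ j, v 0 j = 0 := by
  rw [mem_Zc]
  have : ∀ j, ∑ i : Fin m, (0 : F) ^ (i : ℕ) * v i j = v 0 j := by
    intro j
    rw [Finset.sum_eq_single 0]
    · simp
    · intro i _ hi
      have : (i : ℕ) ≠ 0 := fun h => hi (Fin.ext (by simpa using h))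
      rw [zero_pow this, zero_mul]
    · simp
  simp only [this]

theorem tr_apply {F : Type} [Field F] (m : ℕ) [NeZero m] (v : Ar F m) (i j : Fin m) :
    tr m v i j = if i = 0 ∨ j = 0 then v i j else v j i := rfl

theorem tr_tr {F : Type} [Field F] (m : ℕ) [NeZero m] (v : Ar F m) : tr m (tr m v) = v :=
  (tr (F := F) m).left_inv v

theorem tr_mul_tr {F : Type} [Field F] (m : ℕ) [NeZero m] : tr (F := F) m * tr m = 1 := by
  ext v
  exact congrFun (congrFun (tr_tr m v) _) _

theorem tr_inv {F : Type} [Field F] (m : ℕ) [NeZero m] : (tr (F := F) m)⁻¹ = tr m :=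
  inv_eq_of_mul_eq_one_left (tr_mul_tr m)

theorem tr_Zc {F : Type} [Field F] (m : ℕ) [NeZero m] {v : Ar F m} (hv : v ∈ Zc m (0 : F)) :
    tr m v ∈ Zc m (0 : F) := by
  rw [mem_Zc_zero] at hv ⊢
  intro j
  rw [tr_apply, if_pos (Or.inl rfl), hv j]

section sets

variable (F : Type) [Field F] [Fintype F] [DecidableEq F] (m : ℕ) [NeZero m]
  [Fintype (Ar F m ≃ₗ[F] Ar F m)]

open Classical in
/-- the step sets -/
def Sl (c : F) : Finset (Ar F m ≃ₗ[F] Ar F m) :=
  if c = 0 then univ.filter (fun g => (tr m)⁻¹ * g ∈ FixS (Zc m (0 : F)))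
  else univ.filter (fun g => g ∈ FixS (Zc m c))

theorem mem_Sl_zero {g : Ar F m ≃ₗ[F] Ar F m} :
    g ∈ Sl F m 0 ↔ tr m * g ∈ FixS (Zc m (0 : F)) := by
  simp [Sl, tr_inv]

theorem mem_Sl {c : F} (hc : c ≠ 0) {g : Ar F m ≃ₗ[F] Ar F m} :
    g ∈ Sl F m c ↔ g ∈ FixS (Zc m c) := by
  simp [Sl, hc]

theorem card_FixS {V : Type} [AddCommGroup V] [Module F V] [Fintype (V ≃ₗ[F] V)]
    [DecidableEq (V ≃ₗ[F] V)]
    (Z : Submodule F V) [DecidablePred (fun g : V ≃ₗ[F] V => g ∈ FixS Z)] :
    (univ.filter (fun g : V ≃ₗ[F] V => g ∈ FixS Z)).card = Nat.card (FixS Z) := by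
  rw [Nat.card_eq_fintype_card]
  exact (Fintype.card_subtype _).symm

theorem Sl_card (hconj : S_CONJ) (c : F) :
    (Sl F m c).card = Nat.card (FixS (Zc m (0 : F))) := by
  classical
  by_cases hc : c = 0
  · subst hc
    rw [← card_FixS F (Zc m (0 : F))]
    refine Finset.card_bij' (fun g _ => tr m * g) (fun g _ => tr m * g) ?_ ?_ ?_ ?_
    · intro g hg
      rw [mem_Sl_zero] at hg
      simpa using hg
    · intro g hg
      rw [mem_Sl_zero, ← mul_assoc, tr_mul_tr, one_mul]
      simpa using hg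
    · intro g _
      rw [← mul_assoc, tr_mul_tr, one_mul]
    · intro g _
      rw [← mul_assoc, tr_mul_tr, one_mul]
  · rw [← hconj F m c, ← card_FixS F (Zc m c)]
    congr 1
    ext g
    rw [mem_Sl F m hc]
    simp

theorem Sl_inv {c : F} {g : Ar F m ≃ₗ[F] Ar F m} (hg : g ∈ Sl F m c) : g⁻¹ ∈ Sl F m c := by
  by_cases hc : c = 0
  · subst hc
    rw [mem_Sl_zero] at hg ⊢
    have hg' := (FixS (Zc m (0 : F))).inv_mem hg
    intro v hv
    have h1 := hg' (tr m v) (tr_Zc m hv)
    rw [mul_inv_rev, tr_inv] at h1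
    have h2 : g⁻¹ (tr m (tr m v)) = tr m v := h1
    rw [tr_tr] at h2
    change tr m (g⁻¹ v) = v
    rw [h2, tr_tr]
  · rw [mem_Sl F m hc] at hg ⊢
    exact inv_mem hg

theorem one_notMem_Sl (hm : 3 ≤ m) : (1 : Ar F m ≃ₗ[F] Ar F m) ∉ Sl F m 0 := by
  classical
  rw [mem_Sl_zero, mul_one]
  intro h
  let i1 : Fin m := ⟨1, by omega⟩
  let i2 : Fin m := ⟨2, by omega⟩
  have e1 : i1 ≠ 0 := by
    intro h; have := congrArg Fin.val h; simp [i1] at this
  have e2 : i2 ≠ 0 := by
    intro h; have := congrArg Fin.val h; simp [i2] at this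
  have e3 : i2 ≠ i1 := by
    intro h; have := congrArg Fin.val h; simp [i1, i2] at this
  let v : Ar F m := fun i j => if i = i1 ∧ j = i2 then 1 else 0
  have hv : v ∈ Zc m (0 : F) := by
    rw [mem_Zc_zero]
    intro j
    simp only [v]
    rw [if_neg]
    rintro ⟨h1, _⟩
    exact e1 h1.symm
  have h1 := h v hv
  have h2 := congrFun (congrFun h1 i1) i2
  rw [tr_apply, if_neg (by simp [e1, e2])] at h2
  simp only [v] at h2
  rw [if_neg (by simp [e3]), if_pos (by simp)] at h2
  exact zero_ne_one h2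

theorem Sl_nonempty (hconj : S_CONJ) (c : F) : (Sl F m c).Nonempty := by
  rw [← Finset.card_pos, Sl_card F m hconj c]
  haveI : Finite (FixS (Zc m (0 : F))) := inferInstance
  exact Nat.card_pos

/-- the constant `(q-1)/(q-2)` -/
def cq (F : Type) [Fintype F] : ℝ := ((Fintype.card F : ℝ) - 1) / ((Fintype.card F : ℝ) - 2)

theorem cq_ge {F : Type} [Fintype F] (hq : 3 ≤ Fintype.card F) : 1 ≤ cq F := by
  have : (3 : ℝ) ≤ Fintype.card F := by exact_mod_cast hq
  unfold cq
  rw [le_div_iff₀ (by linarith)]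
  linarith

theorem dens [DecidableEq (Ar F m ≃ₗ[F] Ar F m)] (hdens : S_DENS) (hq : 3 ≤ Fintype.card F) :
    ∀ (w : List F), (0 : F) ∉ w →
    (∀ g ∈ FixS (ZW m w), mu (Sl F m) w g ≤ cq F ^ w.length /
      (Fintype.card F : ℝ) ^ (Module.finrank F (Ar F m ⧸ ZW m w) * Module.finrank F (Ar F m))) ∧
    (∀ g, g ∉ FixS (ZW m w) → mu (Sl F m) w g = 0)
  | [], _ => by
      constructor
      · intro g _
        have h1 : Module.finrank F (Ar F m ⧸ ZW m ([] : List F)) = 0 := by
          rw [ZW]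
          have := Submodule.finrank_quotient_add_finrank (⊤ : Submodule F (Ar F m))
          rw [finrank_top] at this
          omega
        rw [h1]
        simp only [mu, List.length_nil, pow_zero, zero_mul, div_one]
        split_ifs <;> norm_num
      · intro g hg
        change (if g = 1 then (1 : ℝ) else 0) = 0
        rw [if_neg]
        rintro rfl
        exact hg (one_mem _)
  | c :: w, hw => by
      have hc : c ≠ 0 := fun h => hw (by simp [h])
      have hw' : (0 : F) ∉ w := fun h => hw (by simp [h])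
      obtain ⟨ih1, ih2⟩ := dens hdens hq w hw'
      have h := hdens F (Ar F m) hq (ZW m w) (Zc m c) (mu (Sl F m) w) (cq F ^ w.length)
        (pow_nonneg (zero_le_one.trans (cq_ge hq)) _) (mu_nonneg _ w) ih1 ih2
      classical
      have e2 : ∀ z, mu (Sl F m) (c :: w) z =
          (∑ s ∈ univ.filter (fun s => s ∈ FixS (Zc m c)), mu (Sl F m) w (s⁻¹ * z)) /
            (Nat.card (FixS (Zc m c)) : ℝ) := by
        intro z
        rw [← card_FixS F (Zc m c)]
        have e1 : Sl F m c = univ.filter (fun s => s ∈ FixS (Zc m c)) := by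
          ext g
          rw [mem_Sl F m hc]
          simp
        simp only [mu, e1]
      constructor
      · intro g hg
        rw [e2 g, List.length_cons, pow_succ]
        exact h.1 g hg
      · intro g hg
        rw [e2 g]
        exact h.2 g hg

theorem FixS_bot {V : Type} [AddCommGroup V] [Module F V] : FixS (⊥ : Submodule F V) = ⊤ := by
  rw [eq_top_iff]
  intro g _ v hv
  rw [Submodule.mem_bot] at hv
  rw [hv, map_zero]

omit [Fintype F] [DecidableEq F] [NeZero m] [Fintype (Ar F m ≃ₗ[F] Ar F m)] in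
theorem finrank_Ar : Module.finrank F (Ar F m) = m * m := by
  change Module.finrank F (Fin m → Fin m → F) = m * m
  rw [Module.finrank_pi_fintype]
  simp

theorem card_G_le (hcard : S_CARD) : Fintype.card (Ar F m ≃ₗ[F] Ar F m) ≤
    Fintype.card F ^ (m ^ 4) := by
  have h := (hcard F (Ar F m) (⊥ : Submodule F (Ar F m))).1
  rw [FixS_bot] at h
  have h1 : Nat.card (⊤ : Subgroup (Ar F m ≃ₗ[F] Ar F m)) =
      Fintype.card (Ar F m ≃ₗ[F] Ar F m) := by
    rw [Nat.card_congr Subgroup.topEquiv.toEquiv, Nat.card_eq_fintype_card]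
  rw [h1] at h
  have h2 : Module.finrank F (Ar F m ⧸ (⊥ : Submodule F (Ar F m))) = m * m := by
    have := Submodule.finrank_quotient_add_finrank (⊥ : Submodule F (Ar F m))
    rw [finrank_bot, finrank_Ar] at this
    omega
  rw [h2, finrank_Ar] at h
  have h3 : m * m * (m * m) = m ^ 4 := by ring
  rwa [h3] at h

theorem card_G_ge (hcard : S_CARD) : (Fintype.card F - 2) * Fintype.card F ^ (m ^ 4) ≤
    (Fintype.card F - 1) * Fintype.card (Ar F m ≃ₗ[F] Ar F m) := by
  have h := (hcard F (Ar F m) (⊥ : Submodule F (Ar F m))).2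
  rw [FixS_bot] at h
  have h1 : Nat.card (⊤ : Subgroup (Ar F m ≃ₗ[F] Ar F m)) =
      Fintype.card (Ar F m ≃ₗ[F] Ar F m) := by
    rw [Nat.card_congr Subgroup.topEquiv.toEquiv, Nat.card_eq_fintype_card]
  rw [h1] at h
  have h2 : Module.finrank F (Ar F m ⧸ (⊥ : Submodule F (Ar F m))) = m * m := by
    have := Submodule.finrank_quotient_add_finrank (⊥ : Submodule F (Ar F m))
    rw [finrank_bot, finrank_Ar] at this
    omega
  rw [h2, finrank_Ar] at h
  have h3 : m * m * (m * m) = m ^ 4 := by ring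
  rwa [h3] at h

theorem dens_full [DecidableEq (Ar F m ≃ₗ[F] Ar F m)] (hcard : S_CARD) (hvdm : S_VDM)
    (hdens : S_DENS) (hq : 3 ≤ Fintype.card F)
    (w : List F) (h0 : (0 : F) ∉ w) (hw : m ≤ w.toFinset.card) (g : Ar F m ≃ₗ[F] Ar F m) :
    mu (Sl F m) w g ≤ cq F ^ w.length / (Fintype.card (Ar F m ≃ₗ[F] Ar F m) : ℝ) := by
  have h1 := (dens F m hdens hq w h0).1 g
  rw [hvdm F m w hw, FixS_bot] at h1
  have h2 := h1 (Subgroup.mem_top _)
  have h4 : Module.finrank F (Ar F m ⧸ (⊥ : Submodule F (Ar F m))) = m * m := by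
    have := Submodule.finrank_quotient_add_finrank (⊥ : Submodule F (Ar F m))
    rw [finrank_bot, finrank_Ar] at this
    omega
  rw [h4, finrank_Ar] at h2
  have h3 : m * m * (m * m) = m ^ 4 := by ring
  rw [h3] at h2
  refine h2.trans ?_
  have h5 : (Fintype.card (Ar F m ≃ₗ[F] Ar F m) : ℝ) ≤ (Fintype.card F : ℝ) ^ (m ^ 4) := by
    exact_mod_cast card_G_le F m hcard
  have h6 : (0 : ℝ) < Fintype.card (Ar F m ≃ₗ[F] Ar F m) := by
    exact_mod_cast Fintype.card_pos
  exact div_le_div_of_nonneg_left (pow_nonneg (zero_le_one.trans (cq_ge hq)) _) h6 h5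

/-- words without zero fix the common subspace -/
theorem supp_fix (hdens : S_DENS) (hq : 3 ≤ Fintype.card F) (w : List F) (h0 : (0 : F) ∉ w)
    [DecidableEq (Ar F m ≃ₗ[F] Ar F m)]
    (g : Ar F m ≃ₗ[F] Ar F m) (h : mu (Sl F m) w g ≠ 0) (v : Ar F m)
    (hv : ∀ c ∈ w, v ∈ Zc m c) : g v = v := by
  have h1 := (dens F m hdens hq w h0).2 g
  have h2 : g ∈ FixS (ZW m w) := by
    by_contra h3
    exact h (h1 h3)
  exact h2 v (mem_ZW.2 hv)

open Classical in
/-- the rare event -/
def EE (J : ℕ) : Finset (Ar F m ≃ₗ[F] Ar F m) :=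
  univ.filter (fun g => ∃ a b : Fin J → F, ∀ v ∈ YY m (univ.image a) (univ.image b), g v = tr m v)

theorem exists_fun {J : ℕ} (u : List F) (hu : u.length ≤ J) :
    ∃ a : Fin J → F, ∀ c ∈ u, c ∈ (univ.image a : Finset F) := by
  classical
  refine ⟨fun i => u.getD i 0, fun c hc => ?_⟩
  obtain ⟨i, hi, rfl⟩ := List.getElem_of_mem hc
  rw [Finset.mem_image]
  refine ⟨⟨i, by omega⟩, Finset.mem_univ _, ?_⟩
  simp [List.getD_eq_getElem?_getD, hi]

theorem star_mem (hdens : S_DENS) (hq : 3 ≤ Fintype.card F) (J : ℕ) (u u' : List F)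
    [DecidableEq (Ar F m ≃ₗ[F] Ar F m)]
    (hu : (0 : F) ∉ u) (hu' : (0 : F) ∉ u') (h1 : u.length ≤ J) (h2 : u'.length ≤ J)
    (g : Ar F m ≃ₗ[F] Ar F m) (h : mu (Sl F m) (u ++ 0 :: u') g ≠ 0) : g ∈ EE F m J := by
  obtain ⟨g1, g2, rfl, h3, h4⟩ := mu_append (Sl F m) u (0 :: u') g h
  obtain ⟨s, hs, h5⟩ := mu_cons_ne (Sl F m) h4
  obtain ⟨a, ha⟩ := exists_fun F u h1
  obtain ⟨b, hb⟩ := exists_fun F u' h2
  have : g1 * g2 ∈ EE F m J ↔ ∃ a b : Fin J → F,
      ∀ v ∈ YY m (univ.image a) (univ.image b), (g1 * g2) v = tr m v := by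
    simp [EE]
  rw [this]
  refine ⟨a, b, fun v hv => ?_⟩
  obtain ⟨y1, y2, y3, y4⟩ := hv
  rw [mem_Sl_zero] at hs
  -- the letters after the zero
  have e1 : (s⁻¹ * g2) v = v :=
    supp_fix F m hdens hq u' hu' _ h5 v fun c hc => y3 c (hb c hc)
  have e2 : g2 v = s v := by
    have : s ((s⁻¹ * g2) v) = g2 v := by
      change (s * (s⁻¹ * g2)) v = g2 v
      simp
    rw [← this, e1]
  -- the rare letter
  have hv0 : v ∈ Zc m (0 : F) := mem_Zc_zero.2 y1
  have e3 : s v = tr m v := by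
    have h6 : tr m (s v) = v := hs v hv0
    rw [← tr_tr m (s v), h6]
  -- the letters before the zero
  have e4 : g1 (tr m v) = tr m v := by
    refine supp_fix F m hdens hq u hu g1 h3 _ fun c hc => ?_
    rw [mem_Zc]
    intro j
    have h7 : ∀ i, tr m v i j = v j i := by
      intro i
      rw [tr_apply]
      split_ifs with h8
      · rcases h8 with h8 | h8
        · rw [h8, y1 j, y2 j]
        · rw [h8, y1 i, y2 i]
      · rfl
    simp only [h7]
    exact y4 c (ha c hc) j
  change g1 (g2 v) = tr m v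
  rw [e2, e3, e4]

theorem EE_card (hcard : S_CARD) (hdim : S_DIM) (J : ℕ) :
    (EE F m J).card ≤ Fintype.card F ^ (2 * J) *
      Fintype.card F ^ ((m * m - (m - 1 - J) * (m - 1 - J)) * (m * m)) := by
  classical
  have h1 : EE F m J ⊆ (univ : Finset ((Fin J → F) × (Fin J → F))).biUnion
      (fun ab => univ.filter (fun g => (tr m)⁻¹ * g ∈
        FixS (YY m (univ.image ab.1) (univ.image ab.2)))) := by
    intro g hg
    have : g ∈ EE F m J ↔ ∃ a b : Fin J → F,
        ∀ v ∈ YY m (univ.image a) (univ.image b), g v = tr m v := by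
      simp [EE]
    rw [this] at hg
    obtain ⟨a, b, hab⟩ := hg
    rw [Finset.mem_biUnion]
    refine ⟨(a, b), Finset.mem_univ _, ?_⟩
    rw [Finset.mem_filter]
    refine ⟨Finset.mem_univ _, fun v hv => ?_⟩
    rw [tr_inv]
    change tr m (g v) = v
    rw [hab v hv, tr_tr]
  refine (Finset.card_le_card h1).trans ?_
  refine Finset.card_biUnion_le_card_mul _ _
    (Fintype.card F ^ ((m * m - (m - 1 - J) * (m - 1 - J)) * (m * m))) ?_ |>.trans ?_
  · intro ab _
    have h2 : (univ.filter (fun g : Ar F m ≃ₗ[F] Ar F m => (tr m)⁻¹ * g ∈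
        FixS (YY m (univ.image ab.1) (univ.image ab.2)))).card =
        Nat.card (FixS (YY m (univ.image ab.1) (univ.image ab.2))) := by
      rw [← card_FixS F]
      refine Finset.card_bij' (fun g _ => (tr m)⁻¹ * g) (fun g _ => tr m * g) ?_ ?_ ?_ ?_
      · intro g hg; simpa using hg
      · intro g hg; simpa using hg
      · intro g _; simp
      · intro g _; simp
    rw [h2]
    refine (hcard F (Ar F m) (YY m (univ.image ab.1) (univ.image ab.2))).1.trans ?_
    apply Nat.pow_le_pow_right Fintype.card_pos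
    rw [finrank_Ar]
    apply Nat.mul_le_mul_right
    have h3 := Submodule.finrank_quotient_add_finrank (YY m (univ.image ab.1) (univ.image ab.2))
    rw [finrank_Ar] at h3
    have h4 := hdim F m (univ.image ab.1) (univ.image ab.2)
    have h5 : (univ.image ab.1 : Finset F).card ≤ J := by
      refine Finset.card_image_le.trans ?_
      simp
    have h6 : (univ.image ab.2 : Finset F).card ≤ J := by
      refine Finset.card_image_le.trans ?_
      simp
    have h7 : (m - 1 - J) * (m - 1 - J) ≤ Module.finrank F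
        (YY m (univ.image ab.1) (univ.image ab.2)) :=
      (Nat.mul_le_mul (by omega) (by omega)).trans h4
    omega
  · rw [Finset.card_univ, Fintype.card_prod, Fintype.card_fun, Fintype.card_fin, ← pow_add,
      two_mul]

end sets

end

end Pool.Agent.Y866.EC
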