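import Pool.Agent.Y866.EC.Grp
import Pool.Agent.Y555.EC.Card
import Pool.Agent.Y930.EC.Dim
import Pool.Agent.Y930.EC.Vdm
import Pool.Agent.Y930.EC.Dens
import Pool.Agent.Y528.EC.Walk
import Pool.Agent.Y528.EC.Word1
import Pool.Agent.Y528.EC.Word2
import Pool.Agent.Y908.EC.Ent
import Pool.Agent.Y908.EC.Bin
import Pool.Agent.Y908.EC.Num

set_option autoImplicit false
set_option maxHeartbeats 4000000

open Finset Filter Topology
open scoped Pointwise

namespace Pool.Agent.Y866.EC

open Pool.Agent.Results.MP_1e9518_pr.EntropyPrecutoff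

noncomputable section

theorem codim_Zc (F : Type) [Field F] (m : ℕ) [NeZero m] :
    Module.finrank F (Ar F m ⧸ Zc m (0 : F)) ≤ m := by
  let f : Ar F m →ₗ[F] (Fin m → F) := LinearMap.proj 0
  have h1 : LinearMap.ker f = Zc m (0 : F) := by
    ext v
    rw [LinearMap.mem_ker, mem_Zc_zero]
    constructor
    · intro h j
      exact congrFun h j
    · intro h
      funext j
      exact h j
  rw [← h1, (LinearMap.quotKerEquivRange f).finrank_eq]
  calc Module.finrank F (LinearMap.range f) ≤ Module.finrank F (Fin m → F) :=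
        Submodule.finrank_le _
    _ = m := by simp

/-- the data for one parameter -/
def Dat (k : ℕ) (ε : ℝ) : Prop :=
  ∃ (V : Type) (_ : Fintype V) (_ : DecidableEq V) (G : SimpleGraph V)
    (_ : DecidableRel G.Adj), G.Connected ∧ VertexTransitive G ∧ k + 2 ≤ Fintype.card V ∧
    relEnt (lazySRW G) (24 * k) ≤ 1000000 ∧ 1 < relEnt (lazySRW G) (26 * k) ∧
    (∀ t ≤ 4 * k, 1 / 4 < d (lazySRW G) t) ∧
    (∀ θ : ℝ, 0 ≤ θ → ε < θ ^ (24 * k) → lambda2 (lazySRW G) ≤ θ)

theorem single (F : Type) [Field F] [Fintype F] [DecidableEq F] (hchar : ∀ x : F, -x = x)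
    (hq : 3 ≤ Fintype.card F) (k : ℕ) (hk : 1 ≤ k)
    (n2 : 2 < (1 / 4) * (k / (Fintype.card F : ℝ)) * (1 - 1 / (Fintype.card F : ℝ)) ^ (26 * k) *
      (((k : ℝ) ^ 2 * (8 * k + 1) ^ 2 - 14 * k) * Real.log (Fintype.card F) - Real.log 2))
    (n3 : Real.log (cc k (Fintype.card F)) + beta k (Fintype.card F) *
      (1 + ((8 * k + 1 : ℝ) ^ 4 + 1) * Real.log (Fintype.card F)) ≤ 1000000)
    (n4 : cc k (Fintype.card F) - 1 + 2 * beta k (Fintype.card F) < 1) :
    Dat k (cc k (Fintype.card F) - 1 + 2 * beta k (Fintype.card F)) := by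
  have hcard := Pool.Agent.Y555.EC.t_card
  have hdim := Pool.Agent.Y930.EC.t_dim
  have hvdm := Pool.Agent.Y930.EC.t_vdm
  have hconj := Pool.Agent.Y930.EC.t_conj
  have hdens := Pool.Agent.Y930.EC.t_dens hcard
  have hwalk := Pool.Agent.Y528.EC.walk
  have hw1 := Pool.Agent.Y528.EC.word1
  have hw2 := Pool.Agent.Y528.EC.word2
  have hw3 := Pool.Agent.Y528.EC.word3
  have hent1 := Pool.Agent.Y908.EC.ent1
  have hent2 := Pool.Agent.Y908.EC.ent2
  have hent3 := Pool.Agent.Y908.EC.ent3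
  have hent4 := Pool.Agent.Y908.EC.ent4
  have hbin := Pool.Agent.Y908.EC.bin
  have hqr : (3 : ℝ) ≤ Fintype.card F := by exact_mod_cast hq
  set m : ℕ := 8 * k + 1 with hm
  haveI : NeZero m := ⟨by omega⟩
  haveI : Finite (Ar F m ≃ₗ[F] Ar F m) :=
    Finite.of_injective (fun g => (g : Ar F m → Ar F m)) DFunLike.coe_injective
  letI : Fintype (Ar F m ≃ₗ[F] Ar F m) := Fintype.ofFinite _
  letI : DecidableEq (Ar F m ≃ₗ[F] Ar F m) := Classical.decEq _
  set q : ℕ := Fintype.card F with hqd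
  set N : ℕ := Fintype.card (Ar F m ≃ₗ[F] Ar F m) with hN
  have hN0 : 0 < N := Fintype.card_pos
  set κ : ℕ := Nat.card (FixS (Zc m (0 : F))) with hκd
  have hSl : ∀ c, (Sl F m c).card = κ := Sl_card F m hconj
  have hSn : ∀ c, (Sl F m c).Nonempty := Sl_nonempty F m hconj
  have hκ : 0 < κ := by
    have := (hSn 0).card_pos
    rwa [hSl 0] at this
  let S : Finset ((Ar F m ≃ₗ[F] Ar F m) × Multiplicative F) := SS (Sl F m)
  have hScard : S.card = q * κ := (hw1 F _ (Sl F m) κ hκ hSl).1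
  have hS : S.Nonempty := by
    rw [← Finset.card_pos, hScard]
    exact Nat.mul_pos (by omega) hκ
  have h1 : (1 : (Ar F m ≃ₗ[F] Ar F m) × Multiplicative F) ∉ S := by
    intro h
    have h2 := (Finset.mem_filter.1 h).2
    exact one_notMem_Sl F m (by omega) h2
  have hinv : ∀ s ∈ S, s⁻¹ ∈ S := by
    intro s hs
    have h2 := (Finset.mem_filter.1 hs).2
    refine Finset.mem_filter.2 ⟨Finset.mem_univ _, ?_⟩
    have h3 := Sl_inv F m h2
    have h4 : Multiplicative.toAdd (s⁻¹).2 = Multiplicative.toAdd s.2 := by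
      rw [Prod.snd_inv, toAdd_inv, hchar]
    rw [h4]
    exact h3
  have hV : Fintype.card ((Ar F m ≃ₗ[F] Ar F m) × Multiplicative F) = N * q := by
    rw [Fintype.card_prod, Fintype.card_multiplicative]
  have hVpos : (0 : ℝ) < Fintype.card ((Ar F m ≃ₗ[F] Ar F m) × Multiplicative F) := by
    exact_mod_cast Fintype.card_pos
  -- size of the group
  have hNle : N ≤ q ^ (m ^ 4) := card_G_le F m hcard
  have hNge : (q - 2) * q ^ (m ^ 4) ≤ (q - 1) * N := card_G_ge F m hcard
  have hNq : q ^ (m ^ 4) ≤ N * q := by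
    calc q ^ (m ^ 4) = 1 * q ^ (m ^ 4) := (one_mul _).symm
      _ ≤ (q - 2) * q ^ (m ^ 4) := Nat.mul_le_mul_right _ (by omega)
      _ ≤ (q - 1) * N := hNge
      _ ≤ q * N := Nat.mul_le_mul_right _ (by omega)
      _ = N * q := mul_comm _ _
  -- decomposition
  have hcc : cc k (q : ℝ) = cq F ^ (24 * k) := rfl
  have hgood := good_le F m hcard hvdm hdens hw2 hq (24 * k)
  have hbad : ∑ y, part (Sl F m) (fun w => ¬ Gd F m w) (24 * k) y ≤ beta k (q : ℝ) := by
    refine (bad_le F m hconj hw2 hq (24 * k)).trans (le_of_eq ?_)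
    unfold beta
    push_cast
    rfl
  have hctr : Ctr S (24 * k) (cc k (q : ℝ) - 1 + 2 * beta k (q : ℝ)) :=
    ctr_of hwalk hent4 S hS (24 * k) (part (Sl F m) (Gd F m) (24 * k))
      (part (Sl F m) (fun w => ¬ Gd F m w) (24 * k)) (cc k (q : ℝ)) (beta k (q : ℝ))
      (part_nonneg _ _ _) (part_nonneg _ _ _)
      (pt_split (Sl F m) hw1 κ hκ hSl (Gd F m) (24 * k)) hgood hbad
  have hconn : (cay S h1 hinv).Connected := connected S h1 hinv hS _ _ hctr n4
  have hlogq : 0 < Real.log (q : ℝ) := Real.log_pos (by linarith)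
  have hbeta : 0 ≤ beta k (q : ℝ) := by
    unfold beta
    positivity
  refine ⟨_, inferInstance, inferInstance, cay S h1 hinv, inferInstance, hconn,
    cay_trans S h1 hinv, ?_, ?_, ?_, ?_, ?_⟩
  · -- size
    rw [hV]
    refine le_trans ?_ hNq
    calc k + 2 ≤ m + 1 := by omega
      _ ≤ 3 ^ m := by
        have : m < 3 ^ m := Nat.lt_pow_self (by norm_num)
        omega
      _ ≤ q ^ m := Nat.pow_le_pow_left hq m
      _ ≤ q ^ (m ^ 4) := Nat.pow_le_pow_right (by omega) (by
        calc m = m ^ 1 := (pow_one m).symm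
          _ ≤ m ^ 4 := Nat.pow_le_pow_right (by omega) (by norm_num))
  · -- upper bound
    rw [lazy_eq, relEnt_eq hwalk S hS]
    refine (hent1 _ (pt S (24 * k)) (part (Sl F m) (Gd F m) (24 * k))
      (part (Sl F m) (fun w => ¬ Gd F m w) (24 * k)) (cc k (q : ℝ)) (beta k (q : ℝ))
      (part_nonneg _ _ _) (part_nonneg _ _ _)
      (pt_split (Sl F m) hw1 κ hκ hSl (Gd F m) (24 * k)) (pt_sum S hS _) hgood hbad
      (by rw [hcc]; exact one_le_pow₀ (cq_ge hq))).trans ?_
    refine le_trans ?_ n3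
    have h5 : Real.log (Fintype.card ((Ar F m ≃ₗ[F] Ar F m) × Multiplicative F) : ℝ) ≤
        ((8 * k + 1 : ℝ) ^ 4 + 1) * Real.log (q : ℝ) := by
      have h6 : (Fintype.card ((Ar F m ≃ₗ[F] Ar F m) × Multiplicative F) : ℝ) ≤
          (q : ℝ) ^ (m ^ 4 + 1) := by
        rw [hV, pow_succ]
        have : N * q ≤ q ^ (m ^ 4) * q := Nat.mul_le_mul_right _ hNle
        exact_mod_cast this
      calc Real.log _ ≤ Real.log ((q : ℝ) ^ (m ^ 4 + 1)) := Real.log_le_log hVpos h6
        _ = ((8 * k + 1 : ℝ) ^ 4 + 1) * Real.log (q : ℝ) := by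
            rw [Real.log_pow, hm]
            push_cast
            ring
    have h7 := mul_le_mul_of_nonneg_left (add_le_add_left h5 1) hbeta
    linarith
  · -- lower bound
    rw [lazy_eq, relEnt_eq hwalk S hS]
    set A : ℝ := (1 / 4) * (k / (q : ℝ)) * (1 - 1 / (q : ℝ)) ^ (26 * k) with hA
    set l : ℝ := ((k : ℝ) ^ 2 * (8 * k + 1) ^ 2 - 14 * k) * Real.log (q : ℝ) - Real.log 2 with hl
    have hr : 0 ≤ 1 - 1 / (q : ℝ) := by
      have : 1 / (q : ℝ) ≤ 1 := by
        rw [div_le_one (by linarith)]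
        linarith
      linarith
    have hA0 : 0 ≤ A := by positivity
    have hl0 : 0 ≤ l := by
      by_contra hcon
      push Not at hcon
      nlinarith
    have hlow := lower F m hconj hdens hw1 hw3 hbin hq k hk
    rw [← hqd, ← hA] at hlow
    have hE : (((EE F m (7 * k)) ×ˢ (univ : Finset (Multiplicative F))).card : ℝ) ≤
        Real.exp (-l) * (Fintype.card ((Ar F m ≃ₗ[F] Ar F m) × Multiplicative F) : ℝ) := by
      rw [Finset.card_product, Finset.card_univ, Fintype.card_multiplicative, hV]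
      push_cast
      rw [← mul_assoc]
      refine mul_le_mul_of_nonneg_right ?_ (by positivity)
      have h5 := EE_card F m hcard hdim (7 * k)
      have h6 : m - 1 - 7 * k = k := by omega
      rw [h6] at h5
      have h7 : ((EE F m (7 * k)).card : ℝ) ≤ (q : ℝ) ^ (2 * (7 * k)) *
          (q : ℝ) ^ ((m * m - k * k) * (m * m)) := by exact_mod_cast h5
      refine h7.trans ?_
      have hq0 : (0 : ℝ) < q := by linarith
      have h8 : Real.exp (-l) = 2 * (q : ℝ) ^ (2 * (7 * k)) / (q : ℝ) ^ (k * k * (m * m)) := by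
        have e1 : -l = Real.log 2 + ((2 * (7 * k) : ℕ) : ℝ) * Real.log q -
            ((k * k * (m * m) : ℕ) : ℝ) * Real.log q := by
          rw [hl, hm]
          push_cast
          ring
        rw [e1, Real.exp_sub, Real.exp_add, Real.exp_log (by norm_num),
          Real.exp_nat_mul, Real.exp_nat_mul, Real.exp_log hq0]
      rw [h8]
      have h9 : (q : ℝ) ^ (m ^ 4) ≤ 2 * N := by
        have h10 : ((q : ℝ) - 2) * (q : ℝ) ^ (m ^ 4) ≤ ((q : ℝ) - 1) * N := by
          have h11 : (((q - 2 : ℕ) : ℝ)) * (q : ℝ) ^ (m ^ 4) ≤ ((q - 1 : ℕ) : ℝ) * N := by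
            exact_mod_cast hNge
          rwa [Nat.cast_sub (by omega), Nat.cast_sub (by omega), Nat.cast_ofNat,
            Nat.cast_one] at h11
        have h12 : (0 : ℝ) < N := by exact_mod_cast hN0
        have h13 : ((q : ℝ) - 1) * N ≤ 2 * ((q : ℝ) - 2) * N := by
          refine mul_le_mul_of_nonneg_right ?_ h12.le
          linarith
        have h14 : ((q : ℝ) - 2) * (q : ℝ) ^ (m ^ 4) ≤ ((q : ℝ) - 2) * (2 * N) := by
          refine h10.trans (h13.trans (le_of_eq ?_))
          ring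
        exact le_of_mul_le_mul_left h14 (by linarith)
      have h15 : (m * m - k * k) * (m * m) + k * k * (m * m) = m ^ 4 := by
        rw [← add_mul, Nat.sub_add_cancel (Nat.mul_le_mul (by omega) (by omega))]
        ring
      rw [div_mul_eq_mul_div, le_div_iff₀ (by positivity), mul_assoc, ← pow_add, h15]
      calc (q : ℝ) ^ (2 * (7 * k)) * (q : ℝ) ^ (m ^ 4)
          ≤ (q : ℝ) ^ (2 * (7 * k)) * (2 * N) := mul_le_mul_of_nonneg_left h9 (by positivity)
        _ = 2 * (q : ℝ) ^ (2 * (7 * k)) * N := by ring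
    have h5 := hent2 _ (pt S (26 * k)) ((EE F m (7 * k)) ×ˢ (univ : Finset (Multiplicative F)))
      A l (pt_nonneg S _) (pt_sum S hS _) hlow hl0 hE
    linarith
  · -- total variation
    intro t ht
    rw [lazy_eq, d_eq hwalk S hS]
    have h5 := hent3 _ (pt S t) ((insert 1 S) ^ t) (pt_nonneg S t) (pt_sum S hS t)
      (fun y hy => by
        by_contra hne
        exact hy (pt_supp S t y hne)) ?_
    · linarith
    · rw [hV]
      refine le_trans ?_ hNq
      have hκle : κ ≤ q ^ (m * (m * m)) := by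
        refine (hcard F (Ar F m) (Zc m (0 : F))).1.trans ?_
        rw [finrank_Ar]
        exact Nat.pow_le_pow_right (by omega) (Nat.mul_le_mul_right _ (codim_Zc F m))
      have h6 : (insert 1 S).card ≤ q ^ (m ^ 3 + 2) := by
        have h7 : 1 ≤ q ^ (m ^ 3 + 1) := Nat.one_le_pow _ _ (by omega)
        have h8 : q * κ ≤ q ^ (m ^ 3 + 1) := by
          calc q * κ ≤ q * q ^ (m * (m * m)) := Nat.mul_le_mul_left _ hκle
            _ = q ^ (m ^ 3 + 1) := by
              rw [pow_succ', pow_succ' m, pow_succ' m, pow_one]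
        calc (insert 1 S).card ≤ S.card + 1 := Finset.card_insert_le _ _
          _ = q * κ + 1 := by rw [hScard]
          _ ≤ q ^ (m ^ 3 + 1) + q ^ (m ^ 3 + 1) := by omega
          _ = 2 * q ^ (m ^ 3 + 1) := by ring
          _ ≤ q * q ^ (m ^ 3 + 1) := Nat.mul_le_mul_right _ (by omega)
          _ = q ^ (m ^ 3 + 2) := by ring
      calc 2 * ((insert 1 S) ^ t).card ≤ 2 * (insert 1 S).card ^ t :=
            Nat.mul_le_mul_left _ Finset.card_pow_le
        _ ≤ 2 * (q ^ (m ^ 3 + 2)) ^ t := Nat.mul_le_mul_left _ (Nat.pow_le_pow_left h6 t)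
        _ ≤ q * (q ^ (m ^ 3 + 2)) ^ t := Nat.mul_le_mul_right _ (by omega)
        _ = q ^ ((m ^ 3 + 2) * t + 1) := by
            rw [← pow_mul, pow_succ]
            ring
        _ ≤ q ^ (m ^ 4) := by
            apply Nat.pow_le_pow_right (by omega)
            have h9 : (m ^ 3 + 2) * t ≤ (m ^ 3 + 2) * (4 * k) := Nat.mul_le_mul_left _ ht
            have h10 : m ^ 4 = m ^ 3 * (8 * k + 1) := by rw [pow_succ m 3]
            have h11 : m ≤ m ^ 3 := by
              calc m = m ^ 1 := (pow_one m).symm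
                _ ≤ m ^ 3 := Nat.pow_le_pow_right (by omega) (by norm_num)
            rw [h10]
            nlinarith
  · -- second eigenvalue
    intro θ hθ h
    rw [lazy_eq]
    exact lam2_le S hS hinv _ _ θ hctr hθ h

theorem facts_final : ∃ (ε : ℕ → ℝ) (K0 : ℕ), Tendsto ε atTop (𝓝 0) ∧ 1 ≤ K0 ∧
    ∀ k, K0 ≤ k → Dat k (ε k) := by
  obtain ⟨a, ha1, hev, htend⟩ := Pool.Agent.Y908.EC.num
  have h1 : ∀ᶠ k : ℕ in atTop, cc k (2 ^ a k) - 1 + 2 * beta k (2 ^ a k) < 1 :=
    htend.eventually_lt_const (by norm_num)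
  obtain ⟨K1, hK1⟩ := eventually_atTop.1 (hev.and h1)
  refine ⟨fun k => cc k (2 ^ a k) - 1 + 2 * beta k (2 ^ a k), max K1 1, htend, le_max_right _ _,
    fun k hk => ?_⟩
  obtain ⟨⟨h3, h4, h5⟩, h6⟩ := hK1 k ((le_max_left _ _).trans hk)
  haveI : Fact (Nat.Prime 2) := ⟨Nat.prime_two⟩
  let F := GaloisField 2 (a k)
  letI : Fintype F := Fintype.ofFinite F
  letI : DecidableEq F := Classical.decEq F
  have hF : Fintype.card F = 2 ^ a k := by
    rw [← Nat.card_eq_fintype_card]
    exact GaloisField.card 2 (a k) (by have := ha1 k; omega)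
  have hFr : (Fintype.card F : ℝ) = (2 : ℝ) ^ a k := by
    rw [hF]
    push_cast
    rfl
  have hq : 3 ≤ Fintype.card F := by
    have : (3 : ℝ) ≤ (Fintype.card F : ℝ) := by rw [hFr]; exact h3
    exact_mod_cast this
  have hchar : ∀ x : F, -x = x := fun x => CharTwo.neg_eq x
  have h7 := single F hchar hq k ((le_max_right _ _).trans hk)
  rw [hFr] at h7
  exact h7 h4 h5 h6

end

end Pool.Agent.Y866.EC
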