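import Pool.Agent.Y866.EC.Stm

set_option autoImplicit false
set_option maxHeartbeats 4000000

open Finset Filter Topology

namespace Pool.Agent.Y866.EC

noncomputable section

/-! ## general facts on `W` -/
section W
variable {F : Type} [Fintype F]

theorem W_mono : ∀ (n : ℕ) (Φ Ψ : List F → ℝ), (∀ w, w.length = n → Φ w ≤ Ψ w) → W n Φ ≤ W n Ψ
  | 0, Φ, Ψ, h => h [] rfl
  | n + 1, Φ, Ψ, h => by
      change ∑ c : F, W n (fun w => Φ (c :: w)) ≤ ∑ c : F, W n (fun w => Ψ (c :: w))
      refine Finset.sum_le_sum fun c _ => W_mono n _ _ fun w hw => ?_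
      exact h _ (by simp [hw])

theorem W_congr (n : ℕ) (Φ Ψ : List F → ℝ) (h : ∀ w, w.length = n → Φ w = Ψ w) :
    W n Φ = W n Ψ :=
  le_antisymm (W_mono n _ _ fun w hw => (h w hw).le) (W_mono n _ _ fun w hw => (h w hw).ge)

theorem W_add : ∀ (n : ℕ) (Φ Ψ : List F → ℝ), W n (fun w => Φ w + Ψ w) = W n Φ + W n Ψ
  | 0, Φ, Ψ => rfl
  | n + 1, Φ, Ψ => by
      change ∑ c : F, W n (fun w => Φ (c :: w) + Ψ (c :: w)) =
        ∑ c : F, W n (fun w => Φ (c :: w)) + ∑ c : F, W n (fun w => Ψ (c :: w))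
      rw [← Finset.sum_add_distrib]
      exact Finset.sum_congr rfl fun c _ => W_add n _ _

theorem W_zero : ∀ (n : ℕ), W n (fun _ : List F => (0 : ℝ)) = 0
  | 0 => rfl
  | n + 1 => by
      change ∑ c : F, W n (fun _ => (0 : ℝ)) = 0
      exact Finset.sum_eq_zero fun c _ => W_zero n

theorem W_mul : ∀ (n : ℕ) (Φ : List F → ℝ) (r : ℝ), W n (fun w => Φ w * r) = W n Φ * r
  | 0, Φ, r => rfl
  | n + 1, Φ, r => by
      change ∑ c : F, W n (fun w => Φ (c :: w) * r) = (∑ c : F, W n (fun w => Φ (c :: w))) * r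
      rw [Finset.sum_mul]
      exact Finset.sum_congr rfl fun c _ => W_mul n _ _

theorem W_sum {ι : Type} (s : Finset ι) (n : ℕ) (Φ : ι → List F → ℝ) :
    W n (fun w => ∑ i ∈ s, Φ i w) = ∑ i ∈ s, W n (Φ i) := by
  classical
  induction s using Finset.induction_on with
  | empty => simpa using W_zero n
  | insert a s ha ih =>
    rw [Finset.sum_insert ha, ← ih, ← W_add]
    refine W_congr n _ _ fun w _ => ?_
    rw [Finset.sum_insert ha]

theorem W_nonneg (n : ℕ) (Φ : List F → ℝ) (h : ∀ w, 0 ≤ Φ w) : 0 ≤ W n Φ := by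
  have := W_mono n (fun _ => 0) Φ fun w _ => h w
  rwa [W_zero] at this

end W

/-! ## general facts on `mu` -/
section mu
variable {F G : Type} [Group G] [DecidableEq G] (S : F → Finset G)

theorem mu_nonneg : ∀ (w : List F) (g : G), 0 ≤ mu S w g
  | [], g => by
      change 0 ≤ (if g = 1 then (1 : ℝ) else 0)
      split_ifs <;> norm_num
  | c :: w, g => by
      change 0 ≤ (∑ s ∈ S c, mu S w (s⁻¹ * g)) / ((S c).card : ℝ)
      exact div_nonneg (Finset.sum_nonneg fun s _ => mu_nonneg w _) (by positivity)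

theorem mu_sum [Fintype G] (hS : ∀ c, (S c).Nonempty) : ∀ (w : List F), ∑ g, mu S w g = 1
  | [] => by
      change ∑ g : G, (if g = 1 then (1 : ℝ) else 0) = 1
      simp
  | c :: w => by
      change ∑ g : G, (∑ s ∈ S c, mu S w (s⁻¹ * g)) / ((S c).card : ℝ) = 1
      rw [← Finset.sum_div, Finset.sum_comm]
      have h1 : ∀ s ∈ S c, ∑ g : G, mu S w (s⁻¹ * g) = 1 := by
        intro s _
        rw [← mu_sum hS w]
        exact Fintype.sum_equiv (Equiv.mulLeft s⁻¹) _ _ fun g => rfl
      rw [Finset.sum_congr rfl h1]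
      have h2 : ((S c).card : ℝ) ≠ 0 := by
        have := (hS c).card_pos
        positivity
      simp [h2]

theorem mu_cons_ne {c : F} {w : List F} {g : G} (h : mu S (c :: w) g ≠ 0) :
    ∃ s ∈ S c, mu S w (s⁻¹ * g) ≠ 0 := by
  by_contra hcon
  push Not at hcon
  apply h
  change (∑ s ∈ S c, mu S w (s⁻¹ * g)) / ((S c).card : ℝ) = 0
  rw [Finset.sum_eq_zero hcon, zero_div]

theorem mu_cons_pos {c : F} {w : List F} {g s : G} (hs : s ∈ S c) (h : mu S w g ≠ 0) :
    mu S (c :: w) (s * g) ≠ 0 := by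
  change (∑ s' ∈ S c, mu S w (s'⁻¹ * (s * g))) / ((S c).card : ℝ) ≠ 0
  have h1 : 0 < mu S w g := lt_of_le_of_ne (mu_nonneg S w g) (Ne.symm h)
  have h2 : 0 < ∑ s' ∈ S c, mu S w (s'⁻¹ * (s * g)) := by
    refine lt_of_lt_of_le h1 ?_
    have h3 := Finset.single_le_sum (f := fun s' => mu S w (s'⁻¹ * (s * g)))
      (fun s' _ => mu_nonneg S w _) hs
    simpa using h3
  have h3 : 0 < ((S c).card : ℝ) := by
    have := Finset.card_pos.2 ⟨s, hs⟩
    positivity
  positivity

theorem mu_append : ∀ (u w : List F) (g : G), mu S (u ++ w) g ≠ 0 →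
    ∃ g1 g2 : G, g = g1 * g2 ∧ mu S u g1 ≠ 0 ∧ mu S w g2 ≠ 0
  | [], w, g, h => ⟨1, g, by simp, by simp [mu], h⟩
  | c :: u, w, g, h => by
      obtain ⟨s, hs, h1⟩ := mu_cons_ne S (w := u ++ w) h
      obtain ⟨g1, g2, h2, h3, h4⟩ := mu_append u w _ h1
      refine ⟨s * g1, g2, ?_, mu_cons_pos S hs h3, h4⟩
      rw [mul_assoc, ← h2]
      simp

end mu

/-! ## the law at time `t` -/
section law
variable {F G : Type} [AddCommGroup F] [Fintype F] [DecidableEq F] [Group G] [Fintype G]
  [DecidableEq G] (S : F → Finset G)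

/-- the part of the law at time `t` carried by the words satisfying `Q` -/
def part (Q : List F → Prop) [DecidablePred Q] (t : ℕ) (y : G × Multiplicative F) : ℝ :=
  (1 / 2 : ℝ) ^ t * ∑ n ∈ range (t + 1), (t.choose n : ℝ) *
    (W n (fun w => if Q w then (if w.sum = Multiplicative.toAdd y.2 then mu S w y.1 else 0)
      else 0) / (Fintype.card F : ℝ) ^ n)

theorem part_nonneg (Q : List F → Prop) [DecidablePred Q] (t : ℕ) (y : G × Multiplicative F) :
    0 ≤ part S Q t y := by
  unfold part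
  refine mul_nonneg (by positivity) (Finset.sum_nonneg fun n _ => mul_nonneg (by positivity)
    (div_nonneg (W_nonneg n _ fun w => ?_) (by positivity)))
  split_ifs
  · exact mu_nonneg S w _
  · exact le_refl _
  · exact le_refl _

theorem pt_split (h1 : S_WORD1) (κ : ℕ) (hκ : 0 < κ) (hS : ∀ c, (S c).card = κ)
    (Q : List F → Prop) [DecidablePred Q] (t : ℕ) (y : G × Multiplicative F) :
    pt (SS S) t y = part S Q t y + part S (fun w => ¬ Q w) t y := by
  unfold pt part
  rw [← mul_add, ← Finset.sum_add_distrib]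
  congr 1
  refine Finset.sum_congr rfl fun n _ => ?_
  rw [← mul_add, ← add_div, ← W_add]
  congr 1
  obtain ⟨g, γ⟩ := y
  have h := (h1 F G S κ hκ hS).2 n g (Multiplicative.toAdd γ)
  rw [ofAdd_toAdd] at h
  rw [h]
  congr 1
  refine W_congr n _ _ fun w _ => ?_
  by_cases hq : Q w
  · simp [hq]
  · simp [hq]

theorem part_sum (hS : ∀ c, (S c).Nonempty) (Q : List F → Prop) [DecidablePred Q] (t : ℕ)
    (E : Finset G) :
    ∑ y ∈ E ×ˢ (univ : Finset (Multiplicative F)), part S Q t y =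
      (1 / 2 : ℝ) ^ t * ∑ n ∈ range (t + 1), (t.choose n : ℝ) *
        (W n (fun w => if Q w then ∑ g ∈ E, mu S w g else 0) / (Fintype.card F : ℝ) ^ n) := by
  unfold part
  rw [← Finset.mul_sum, Finset.sum_comm]
  congr 1
  refine Finset.sum_congr rfl fun n _ => ?_
  rw [← Finset.mul_sum, ← Finset.sum_div, ← W_sum]
  congr 2
  refine W_congr n _ _ fun w _ => ?_
  by_cases hq : Q w
  · simp only [hq, if_true]
    rw [Finset.sum_product]
    refine Finset.sum_congr rfl fun g _ => ?_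
    rw [← Finset.sum_filter]
    have : (univ.filter fun γ : Multiplicative F => w.sum = Multiplicative.toAdd γ) =
        {Multiplicative.ofAdd w.sum} := by
      ext γ
      simp only [Finset.mem_filter, Finset.mem_univ, true_and, Finset.mem_singleton]
      constructor
      · intro h; rw [h]; rfl
      · intro h; rw [h]; rfl
    rw [this, Finset.sum_singleton]
  · simp [hq]

end law

end

end Pool.Agent.Y866.EC
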